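import Pool.Agent.CDB.Four

/-!
# CDB.Acon: anticoncentration with private switches

Let `f` be a function of uniform bits with values in `ℤ^d`, `H` a set of bits and `W u`, `u ∈ H`, pairwise disjoint sets of at most `k` bits outside `H`, such that the increment of `f` at `u ∈ H` does not depend on the bits
of `H` and of the `W v`, `v ≠ u`, and such that for fixed values of the bits outside `W u` its values span `ℚ^d`. Then `P(f = 0) ≤ C(d,k)/√(|H|+1)^d` (`acon`). The increments may be arbitrarily large and different.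

PROOF. Condition on the bits outside `H`, `four1`; the product over `u ∈ H` of the `|1 + χ(v_u)|/2` has independent factors if the bits outside of all the `W u` are fixed; AM-GM; `four2`.
-/

set_option linter.unusedSectionVars false

namespace CDB

open Finset CDG

/-- The assumptions of `acon`. -/
structure Sw {I : Type} [Fintype I] [DecidableEq I] {d : ℕ} (f : (I → Bool) → (Fin d → ℤ)) (H : Finset I)
    (W : I → Finset I) (k : ℕ) : Prop where
  card_le : ∀ u ∈ H, (W u).card ≤ k
  disjH : ∀ u ∈ H, Disjoint (W u) H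
  disj : ∀ u ∈ H, ∀ v ∈ H, u ≠ v → Disjoint (W u) (W v)
  loc : ∀ u ∈ H, ∀ S S' : I → Bool, (∀ g, g ∉ H → (∀ v ∈ H, v ≠ u → g ∉ W v) → S g = S' g) →
    incr f u S = incr f u S'
  span : ∀ u ∈ H, ∀ T : I → Bool, Submodule.span ℚ
    (Set.range fun S : I → Bool => fun i => ((incr f u (mix (W u) S T) i : ℤ) : ℚ)) = ⊤

section

variable {I : Type} [Fintype I] [DecidableEq I]

/-- Switching on the bits of `H` one after the other. -/
theorem tele {d : ℕ} (f : (I → Bool) → (Fin d → ℤ)) (H : Finset I)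
    (hloc : ∀ u ∈ H, ∀ S S' : I → Bool, (∀ g, g ∉ H → S g = S' g) → incr f u S = incr f u S')
    (ξ T : I → Bool) :
    f (mix H ξ T) = f (mix H (fun _ => false) T) +
      ∑ u : I, (if ξ u = true then (if u ∈ H then incr f u (mix H (fun _ => false) T) else 0) else 0) := by
  set B := mix H (fun _ => false) T with hB
  have key : ∀ H' : Finset I, H' ⊆ H → f (mix H' ξ B) = f B + ∑ u ∈ H', (if ξ u = true then incr f u B else 0) := by
    intro H'
    induction H' using Finset.induction_on with
    | empty =>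
      intro _
      have : mix ∅ ξ B = B := by funext x; simp [mix]
      simp [this]
    | insert a H' ha ih =>
      intro hsub
      have haH : a ∈ H := hsub (mem_insert_self a H')
      have ih' := ih fun x hx => hsub (mem_insert_of_mem hx)
      have hBa : B a = false := by simp [hB, mix, haH]
      have hSa : mix H' ξ B a = false := by simp [mix, ha, hBa]
      have hup : mix (insert a H') ξ B = Function.update (mix H' ξ B) a (ξ a) := by
        funext x
        by_cases hx : x = a
        · subst hx; simp [mix]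
        · simp [mix, hx]
      have hup0 : Function.update (mix H' ξ B) a false = mix H' ξ B := by
        rw [← hSa]; simp
      rw [hup, Finset.sum_insert ha]
      cases hξ : ξ a with
      | false =>
        rw [hup0, ih']
        simp
      | true =>
        have hin : f (Function.update (mix H' ξ B) a true) = f (mix H' ξ B) + incr f a (mix H' ξ B) := by
          unfold incr
          rw [hup0]
          abel
        have hl : incr f a (mix H' ξ B) = incr f a B := hloc a haH _ _ fun g hg => by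
          have : g ∉ H' := fun h => hg (hsub (mem_insert_of_mem h))
          simp [mix, this]
        rw [hin, ih', hl]
        simp only [if_true]
        abel
  have h1 := key H (Finset.Subset.refl H)
  have h2 : mix H ξ B = mix H ξ T := by
    funext x
    by_cases hx : x ∈ H <;> simp [hB, mix, hx]
  rw [h2] at h1
  rw [h1]
  congr 1
  rw [← Finset.sum_subset (Finset.subset_univ H)]
  · exact Finset.sum_congr rfl fun u hu => by simp [hu]
  · intro u _ hu
    simp [hu]

/-- Independence of the factors given the bits outside all the `W u`. -/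
theorem cond_prod (q : I → ℝ) (H : Finset I) (W : I → Finset I)
    (hdisj : ∀ u ∈ H, ∀ v ∈ H, u ≠ v → Disjoint (W u) (W v)) (g : I → (I → Bool) → ℝ)
    (hg : ∀ u ∈ H, ∀ T' T : I → Bool, g u (mix (H.biUnion W) T' T) = g u (mix (W u) T' T)) :
    ex q (fun T => ∏ u ∈ H, g u T) = ex q (fun T => ∏ u ∈ H, ex q (fun T' => g u (mix (W u) T' T))) := by
  rw [← mix_ex q (H.biUnion W), ex_comm]
  congr 1
  funext T
  rw [← indep_prod q H W (fun u T' => g u (mix (W u) T' T)) hdisj]
  · congr 1
    funext T'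
    exact Finset.prod_congr rfl fun u hu => hg u hu T' T
  · intro u _ S S' h
    have : mix (W u) S T = mix (W u) S' T := by
      funext x
      by_cases hx : x ∈ W u
      · simp [mix, hx, h x hx]
      · simp [mix, hx]
    rw [this]

/-- AM-GM. -/
theorem amgm {ι : Type*} (H : Finset ι) (h : ι → ℝ) (h0 : ∀ u ∈ H, 0 ≤ h u) (h1 : ∀ u ∈ H, h u ≤ 1)
    (hne : H.Nonempty) (m : ℕ) (hm : m ≤ H.card) :
    ∏ u ∈ H, h u ≤ (∑ u ∈ H, h u ^ m) / (H.card : ℝ) := by
  have hc : (0 : ℝ) < (H.card : ℝ) := by exact_mod_cast hne.card_pos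
  have key := Real.geom_mean_le_arith_mean_weighted H (fun _ => 1 / (H.card : ℝ)) (fun u => h u ^ H.card)
    (fun _ _ => by positivity) (by rw [Finset.sum_const, nsmul_eq_mul]; field_simp) (fun u hu => pow_nonneg (h0 u hu) _)
  have e1 : ∏ u ∈ H, (h u ^ H.card) ^ (1 / (H.card : ℝ)) = ∏ u ∈ H, h u := by
    refine Finset.prod_congr rfl fun u hu => ?_
    rw [← Real.rpow_natCast, ← Real.rpow_mul (h0 u hu), mul_one_div_cancel hc.ne', Real.rpow_one]
  rw [e1, ← Finset.mul_sum] at key
  refine key.trans ?_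
  rw [one_div, inv_mul_eq_div]
  refine div_le_div_of_nonneg_right (Finset.sum_le_sum fun u hu => ?_) hc.le
  exact pow_le_pow_of_le_one (h0 u hu) (h1 u hu) hm

theorem exh_div {ι : Type*} (s : Finset ι) (F : ι → (I → Bool) → ℝ) (a : ℝ) :
    exh (fun S => (∑ j ∈ s, F j S) / a) = (∑ j ∈ s, exh (F j)) / a := by
  have h : (fun S : I → Bool => (∑ j ∈ s, F j S) / a) = fun S => a⁻¹ * ∑ j ∈ s, F j S := by
    funext S
    rw [div_eq_mul_inv, mul_comm]
  have h1 : exh (fun S : I → Bool => a⁻¹ * ∑ j ∈ s, F j S) = a⁻¹ * ∑ j ∈ s, exh (F j) := by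
    unfold exh
    rw [ex_mul, ex_sum]
  rw [h, h1, div_eq_mul_inv, mul_comm]

end

theorem acon (d k : ℕ) : ∃ C : ℝ, 0 < C ∧ ∀ (I : Type) [Fintype I] [DecidableEq I]
    (f : (I → Bool) → (Fin d → ℤ)) (H : Finset I) (W : I → Finset I), Sw f H W k →
    exh (fun S : I → Bool => if f S = 0 then 1 else 0) ≤ C / √((H.card : ℝ) + 1) ^ d := by
  classical
  obtain ⟨C, hC, hfour⟩ := four2 d k
  refine ⟨C * √2 ^ d + 1, by positivity, ?_⟩
  intro I _ _ f H W hS
  have hp0 : ∀ _u : I, (0 : ℝ) ≤ 1 / 2 := fun _ => by norm_num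
  have hp1 : ∀ _u : I, (1 / 2 : ℝ) ≤ 1 := fun _ => by norm_num
  rcases H.eq_empty_or_nonempty with rfl | hne
  · have h1 : exh (fun S : I → Bool => if f S = 0 then (1 : ℝ) else 0) ≤ 1 :=
      ex_le_of_le hp0 hp1 fun S => by split_ifs <;> norm_num
    refine h1.trans ?_
    have h2 : √(((∅ : Finset I).card : ℝ) + 1) ^ d = 1 := by simp
    rw [h2, div_one]
    have h3 : 0 ≤ C * √2 ^ d := by positivity
    linarith
  -- the bound of the increments
  obtain ⟨B, hB⟩ : ∃ B : ℕ, ∀ (u : I) (S : I → Bool) (i : Fin d), |incr f u S i| ≤ B := by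
    refine ⟨∑ u : I, ∑ S : I → Bool, ∑ i : Fin d, (incr f u S i).natAbs, fun u S i => ?_⟩
    have h1 : (incr f u S i).natAbs ≤ ∑ u : I, ∑ S : I → Bool, ∑ i : Fin d, (incr f u S i).natAbs :=
      ((Finset.single_le_sum (f := fun i => (incr f u S i).natAbs) (fun _ _ => Nat.zero_le _) (mem_univ i)).trans
        (Finset.single_le_sum (f := fun S => ∑ i : Fin d, (incr f u S i).natAbs) (fun _ _ => Nat.zero_le _) (mem_univ S))).trans
        (Finset.single_le_sum (f := fun u => ∑ S : I → Bool, ∑ i : Fin d, (incr f u S i).natAbs) (fun _ _ => Nat.zero_le _) (mem_univ u))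
    rw [Int.abs_eq_natAbs]
    exact_mod_cast h1
  set M := H.card with hM
  set m := M / 2 with hm
  set N := M * B + 1 with hN
  have : NeZero N := ⟨by omega⟩
  have hMpos : 0 < M := hne.card_pos
  set 𝒢 := Fin d → ZMod N with h𝒢
  have hG : (0 : ℝ) < (Fintype.card 𝒢 : ℝ) := by
    exact_mod_cast Fintype.card_pos_iff.2 ⟨(0 : 𝒢)⟩
  -- increments do not depend on the bits of `H`
  have hlocH : ∀ u ∈ H, ∀ S S' : I → Bool, (∀ g, g ∉ H → S g = S' g) → incr f u S = incr f u S' :=
    fun u hu S S' h => hS.loc u hu S S' fun g hg _ => h g hg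
  let v : I → (I → Bool) → (Fin d → ℤ) := fun u T => incr f u T
  have hv0 : ∀ u ∈ H, ∀ T, incr f u (mix H (fun _ => false) T) = v u T := fun u hu T =>
    hlocH u hu _ _ fun g hg => by simp [mix, hg]
  let gg : AddChar 𝒢 ℂ → I → (I → Bool) → ℝ := fun χ u T => ‖(1 + χ (red N (v u T))) / 2‖
  have hgg0 : ∀ χ u T, 0 ≤ gg χ u T := fun χ u T => norm_nonneg _
  have hgg1 : ∀ χ u T, gg χ u T ≤ 1 := by
    intro χ u T
    simp only [gg]
    rw [norm_div]
    have h1 := norm_add_le (1 : ℂ) (χ (red N (v u T)))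
    rw [AddChar.norm_apply, norm_one] at h1
    have h2 : ‖(2 : ℂ)‖ = 2 := by simp
    rw [h2, div_le_one (by norm_num)]
    linarith
  -- Step A
  have hA : exh (fun S : I → Bool => if f S = 0 then (1 : ℝ) else 0) ≤
      exh (fun T => (∑ χ : AddChar 𝒢 ℂ, ∏ u ∈ H, gg χ u T) / (Fintype.card 𝒢 : ℝ)) := by
    have h1 : exh (fun S : I → Bool => if f S = 0 then (1 : ℝ) else 0) =
        exh (fun T => exh (fun ξ => if f (mix H ξ T) = 0 then (1 : ℝ) else 0)) := by
      unfold exh
      rw [← ex_comm]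
      exact (mix_ex _ H _).symm
    rw [h1]
    refine ex_mono hp0 hp1 fun T => ?_
    have h2 := four1 (fun u => if u ∈ H then red N (v u T) else 0) (red N (f (mix H (fun _ => false) T)))
    refine le_trans (ex_mono hp0 hp1 fun ξ => ?_) (h2.trans (le_of_eq ?_))
    · by_cases h3 : f (mix H ξ T) = 0
      · rw [if_pos h3, if_pos]
        have h4 := tele f H hlocH ξ T
        rw [h3] at h4
        have h5 := congrArg (red N) h4
        rw [red_add, red_sum] at h5
        have h6 : red N (0 : Fin d → ℤ) = 0 := by funext i; simp [red]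
        rw [h6] at h5
        refine Eq.trans ?_ h5.symm
        congr 1
        refine Finset.sum_congr rfl fun u _ => ?_
        by_cases hξ : ξ u = true
        · rw [if_pos hξ, if_pos hξ]
          by_cases hu : u ∈ H
          · rw [if_pos hu, if_pos hu, hv0 u hu]
          · rw [if_neg hu, if_neg hu, h6]
        · rw [if_neg hξ, if_neg hξ, h6]
      · rw [if_neg h3]
        split_ifs <;> norm_num
    · congr 1
      refine Finset.sum_congr rfl fun χ _ => ?_
      rw [← Finset.prod_subset (Finset.subset_univ H)]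
      · exact Finset.prod_congr rfl fun u hu => by simp only [gg, hu, if_true]
      · intro u _ hu
        simp [hu]
  -- Step C
  have hvW : ∀ u ∈ H, ∀ T' T : I → Bool, v u (mix (H.biUnion W) T' T) = v u (mix (W u) T' T) := by
    intro u hu T' T
    refine hS.loc u hu _ _ fun g _ hg2 => ?_
    by_cases hgu : g ∈ W u
    · have : g ∈ H.biUnion W := Finset.mem_biUnion.2 ⟨u, hu, hgu⟩
      simp only [mix, this, hgu, if_true]
    · have : g ∉ H.biUnion W := by
        rw [Finset.mem_biUnion]
        rintro ⟨w, hw, hgw⟩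
        by_cases hwu : w = u
        · rw [hwu] at hgw; exact hgu hgw
        · exact hg2 w hw hwu hgw
      simp only [mix, this, hgu, if_false]
  have hC' : ∀ χ : AddChar 𝒢 ℂ, exh (fun T => ∏ u ∈ H, gg χ u T) =
      exh (fun T => ∏ u ∈ H, exh (fun T' => gg χ u (mix (W u) T' T))) := by
    intro χ
    refine cond_prod _ H W hS.disj (gg χ) fun u hu T' T => ?_
    simp only [gg, hvW u hu T' T]
  -- Step E
  have hE : ∀ u ∈ H, ∀ T : I → Bool, (∑ χ : AddChar 𝒢 ℂ, (exh (fun T' => gg χ u (mix (W u) T' T))) ^ (2 * m)) /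
      (Fintype.card 𝒢 : ℝ) ≤ C / √((m : ℝ) + 1) ^ d := by
    intro u hu T
    refine hfour I (fun w => v u (mix (W u) w T)) (W u) B N m (hS.card_le u hu) ?_ (hS.span u hu T)
      (fun S i => hB _ _ _) ?_
    · intro S S' h
      have : mix (W u) S T = mix (W u) S' T := by
        funext x
        by_cases hx : x ∈ W u
        · simp [mix, hx, h x hx]
        · simp [mix, hx]
      simp only [this]
    · rw [hN]
      have : m * B ≤ M * B := Nat.mul_le_mul_right _ (by omega)
      omega
  have hfin : exh (fun S : I → Bool => if f S = 0 then (1 : ℝ) else 0) ≤ C / √((m : ℝ) + 1) ^ d := by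
    refine hA.trans ?_
    rw [exh_div]
    rw [Finset.sum_congr rfl fun χ _ => hC' χ]
    have h3 : ∀ χ : AddChar 𝒢 ℂ, exh (fun T => ∏ u ∈ H, exh (fun T' => gg χ u (mix (W u) T' T))) ≤
        exh (fun T => (∑ u ∈ H, (exh (fun T' => gg χ u (mix (W u) T' T))) ^ (2 * m)) / (M : ℝ)) := by
      intro χ
      refine ex_mono hp0 hp1 fun T => ?_
      refine amgm H _ (fun u _ => ex_nonneg hp0 hp1 fun _ => hgg0 _ _ _) (fun u _ => ex_le_of_le hp0 hp1 fun _ => hgg1 _ _ _)
        hne (2 * m) (by omega)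
    have hMr : (0 : ℝ) < (M : ℝ) := by exact_mod_cast hMpos
    calc (∑ χ : AddChar 𝒢 ℂ, exh (fun T => ∏ u ∈ H, exh (fun T' => gg χ u (mix (W u) T' T)))) / (Fintype.card 𝒢 : ℝ)
        ≤ (∑ χ : AddChar 𝒢 ℂ, exh (fun T => (∑ u ∈ H, (exh (fun T' => gg χ u (mix (W u) T' T))) ^ (2 * m)) / (M : ℝ))) /
          (Fintype.card 𝒢 : ℝ) := by
          gcongr with χ _
          exact h3 χ
      _ = exh (fun T => (∑ χ : AddChar 𝒢 ℂ, (∑ u ∈ H, (exh (fun T' => gg χ u (mix (W u) T' T))) ^ (2 * m)) / (M : ℝ)) /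
          (Fintype.card 𝒢 : ℝ)) := by
          rw [exh_div]
      _ ≤ C / √((m : ℝ) + 1) ^ d := by
          refine ex_le_of_le hp0 hp1 fun T => ?_
          have h4 : (∑ χ : AddChar 𝒢 ℂ, (∑ u ∈ H, (exh (fun T' => gg χ u (mix (W u) T' T))) ^ (2 * m)) / (M : ℝ)) /
              (Fintype.card 𝒢 : ℝ) = (∑ u ∈ H, ((∑ χ : AddChar 𝒢 ℂ, (exh (fun T' => gg χ u (mix (W u) T' T))) ^ (2 * m)) /
                (Fintype.card 𝒢 : ℝ))) / (M : ℝ) := by
            rw [← Finset.sum_div, ← Finset.sum_div, Finset.sum_comm]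
            ring
          rw [h4, div_le_iff₀ hMr]
          refine (Finset.sum_le_sum fun u hu => hE u hu T).trans (le_of_eq ?_)
          rw [Finset.sum_const, nsmul_eq_mul]
          ring
  refine hfin.trans ?_
  have hp : 0 < √((m : ℝ) + 1) := Real.sqrt_pos.2 (by positivity)
  have hp' : 0 < √((M : ℝ) + 1) := Real.sqrt_pos.2 (by positivity)
  rw [div_le_div_iff₀ (by positivity) (by positivity)]
  have h5 : √((M : ℝ) + 1) ≤ √2 * √((m : ℝ) + 1) := by
    rw [← Real.sqrt_mul (by norm_num)]
    apply Real.sqrt_le_sqrt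
    have : M + 1 ≤ 2 * (m + 1) := by omega
    exact_mod_cast this
  have h6 : √((M : ℝ) + 1) ^ d ≤ √2 ^ d * √((m : ℝ) + 1) ^ d := by
    rw [← mul_pow]
    exact pow_le_pow_left₀ hp'.le h5 d
  calc C * √((M : ℝ) + 1) ^ d ≤ C * (√2 ^ d * √((m : ℝ) + 1) ^ d) := by gcongr
    _ = (C * √2 ^ d) * √((m : ℝ) + 1) ^ d := by ring
    _ ≤ (C * √2 ^ d + 1) * √((m : ℝ) + 1) ^ d := by
        gcongr
        linarith

end CDB
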