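import Pool.Agent.CDB.Acon

/-!
# CDB.AconQ: anticoncentration with private switches for biased bits

`mixt`: independent bits with probabilities `q u` arise as follows: each bit is free with probability `δ u`, the free bits are uniform, the others have probability `(q u - δ u/2)/(1-δ u)`. Here `δ u = δ` if `q u ∈ [δ, 1-δ]` and `δ u = 0` for the `u` of a set `I₀`.
`acon_q`: `P(f = 0) ≤ C(d,k)/√(δ^(k+1) (|H|+1))^d` if `H` and the `W u` are disjoint from `I₀`, by `acon` for the free bits; the number of the `u ∈ H` such that `u` and `W u` are free is at least `δ^(k+1)|H|/4` with high probability.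
-/

set_option linter.unusedSectionVars false

namespace CDB

open Finset CDG

section

variable {I : Type} [Fintype I] [DecidableEq I]

theorem ex_prod_bit (q : I → ℝ) (g : I → Bool → ℝ) :
    ex q (fun S => ∏ u, g u (S u)) = ∏ u, (q u * g u true + (1 - q u) * g u false) := by
  unfold ex wt
  have h := Finset.prod_univ_sum (fun _ : I => (univ : Finset Bool))
    (fun u b => (if b = true then q u else 1 - q u) * g u b)
  rw [Fintype.piFinset_univ] at h
  simp only [← Finset.prod_mul_distrib]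
  rw [← h]
  refine Finset.prod_congr rfl fun u _ => ?_
  rw [Fintype.sum_bool]
  simp

/-- The set of the free bits. -/
def supp (R : I → Bool) : Finset I := univ.filter fun u => R u = true

theorem ex_single (F : (I → Bool) → ℝ) :
    F = fun S => ∑ S₀ : I → Bool, F S₀ * ∏ u, (if S u = S₀ u then (1 : ℝ) else 0) := by
  funext S
  rw [Finset.sum_eq_single S]
  · simp
  · intro S₀ _ hS
    obtain ⟨u, hu⟩ := Function.ne_iff.1 hS
    rw [Finset.prod_eq_zero (mem_univ u) (if_neg hu.symm), mul_zero]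
  · intro h; exact absurd (mem_univ S) h

theorem mixt (q : I → ℝ) (δ : I → ℝ) (hδ : ∀ u, δ u < 1) (F : (I → Bool) → ℝ) :
    ex δ (fun R => ex (fun u => (q u - δ u / 2) / (1 - δ u)) (fun T => exh (fun ξ => F (mix (supp R) ξ T)))) =
      ex q F := by
  have hδ' : ∀ u, (1 - δ u) ≠ 0 := fun u => by have := hδ u; linarith
  rw [ex_single F]
  have e1 : ∀ R T ξ : I → Bool, (∑ S₀ : I → Bool, F S₀ * ∏ u, (if mix (supp R) ξ T u = S₀ u then (1 : ℝ) else 0)) =
      ∑ S₀ : I → Bool, F S₀ * ∏ u, (if (if R u = true then ξ u else T u) = S₀ u then (1 : ℝ) else 0) := by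
    intro R T ξ
    refine Finset.sum_congr rfl fun S₀ _ => ?_
    congr 1
    refine Finset.prod_congr rfl fun u _ => ?_
    simp [mix, supp]
  simp only [e1]
  unfold exh
  simp only [ex_sum, ex_mul]
  refine Finset.sum_congr rfl fun S₀ _ => ?_
  congr 1
  -- the three products
  have h1 : ∀ R T : I → Bool, ex (fun _ : I => (1 / 2 : ℝ)) (fun ξ => ∏ u, (if (if R u = true then ξ u else T u) = S₀ u then (1 : ℝ) else 0)) =
      ∏ u, (if R u = true then (1 / 2 : ℝ) else (if T u = S₀ u then 1 else 0)) := by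
    intro R T
    rw [ex_prod_bit (fun _ : I => (1 / 2 : ℝ)) (fun u b => if (if R u = true then b else T u) = S₀ u then (1 : ℝ) else 0)]
    refine Finset.prod_congr rfl fun u _ => ?_
    cases R u <;> cases S₀ u <;> cases T u <;> norm_num
  simp only [h1]
  have h2 : ∀ R : I → Bool, ex (fun u => (q u - δ u / 2) / (1 - δ u)) (fun T => ∏ u, (if R u = true then (1 / 2 : ℝ) else (if T u = S₀ u then 1 else 0))) =
      ∏ u, (if R u = true then (1 / 2 : ℝ) else (if S₀ u = true then (q u - δ u / 2) / (1 - δ u) else 1 - (q u - δ u / 2) / (1 - δ u))) := by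
    intro R
    rw [ex_prod_bit (fun u => (q u - δ u / 2) / (1 - δ u)) (fun u b => if R u = true then (1 / 2 : ℝ) else (if b = S₀ u then 1 else 0))]
    refine Finset.prod_congr rfl fun u _ => ?_
    cases R u <;> cases S₀ u <;> simp
    all_goals ring
  simp only [h2]
  rw [ex_prod_bit δ (fun u b => if b = true then (1 / 2 : ℝ) else (if S₀ u = true then (q u - δ u / 2) / (1 - δ u) else 1 - (q u - δ u / 2) / (1 - δ u)))]
  rw [ex_prod_bit q (fun u b => if b = S₀ u then (1 : ℝ) else 0)]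
  refine Finset.prod_congr rfl fun u _ => ?_
  have := hδ' u
  cases S₀ u <;> simp <;> field_simp <;> ring

theorem incr_mix {d : ℕ} (f : (I → Bool) → (Fin d → ℤ)) (R T : I → Bool) {u : I} (hu : R u = true)
    (ξ : I → Bool) : incr (fun ξ => f (mix (supp R) ξ T)) u ξ = incr f u (mix (supp R) ξ T) := by
  have h : ∀ c, mix (supp R) (Function.update ξ u c) T = Function.update (mix (supp R) ξ T) u c := by
    intro c
    funext x
    by_cases hx : x = u
    · subst hx; simp [mix, supp, hu]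
    · simp [mix, hx]
  unfold incr
  simp only [h]

theorem sw_mix {d k : ℕ} {f : (I → Bool) → (Fin d → ℤ)} {H : Finset I} {W : I → Finset I} (hS : Sw f H W k)
    (R T : I → Bool) : Sw (fun ξ => f (mix (supp R) ξ T)) (H.filter fun u => R u = true ∧ ∀ b ∈ W u, R b = true) W k := by
  have hsub : ∀ u ∈ H.filter (fun u => R u = true ∧ ∀ b ∈ W u, R b = true), u ∈ H := fun u hu => (Finset.mem_filter.1 hu).1
  refine ⟨fun u hu => hS.card_le u (hsub u hu), ?_, fun u hu v hv => hS.disj u (hsub u hu) v (hsub v hv), ?_, ?_⟩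
  · intro u hu
    rw [Finset.disjoint_left]
    intro g hg hg'
    exact Finset.disjoint_left.1 (hS.disjH u (hsub u hu)) hg (hsub g hg')
  · intro u hu S S' h
    have hR := (Finset.mem_filter.1 hu).2.1
    rw [incr_mix f R T hR, incr_mix f R T hR]
    refine hS.loc u (hsub u hu) _ _ fun g hg1 hg2 => ?_
    have h1 : S g = S' g := h g (fun h => hg1 (hsub g h)) fun v hv hvu => hg2 v (hsub v hv) hvu
    by_cases hgs : g ∈ supp R <;> simp [mix, hgs, h1]
  · intro u hu T₁
    have hR := (Finset.mem_filter.1 hu).2.1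
    have hRW := (Finset.mem_filter.1 hu).2.2
    have h1 : ∀ S : I → Bool, incr (fun ξ => f (mix (supp R) ξ T)) u (mix (W u) S T₁) =
        incr f u (mix (W u) S (mix (supp R) T₁ T)) := by
      intro S
      rw [incr_mix f R T hR]
      congr 1
      funext x
      by_cases hx : x ∈ W u
      · have : x ∈ supp R := by simp [supp, hRW x hx]
        simp [mix, hx, this]
      · by_cases hx' : x ∈ supp R <;> simp [mix, hx, hx']
    simp only [h1]
    exact hS.span u (hsub u hu) _

/-- The probability that all the bits of `A` are on. -/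
theorem ex_all_true (q : I → ℝ) (A : Finset I) :
    ex q (fun R => if ∀ b ∈ A, R b = true then 1 else 0) = ∏ b ∈ A, q b := by
  classical
  have h2 : ∀ S : I → Bool, (if ∀ g ∈ A, S g = true then (1 : ℝ) else 0) =
      ∏ u, (if u ∈ A then (if S u = true then (1 : ℝ) else 0) else 1) := by
    intro S
    by_cases h : ∀ g ∈ A, S g = true
    · rw [if_pos h]
      symm
      refine Finset.prod_eq_one fun g _ => ?_
      by_cases hg : g ∈ A
      · rw [if_pos hg, if_pos (h g hg)]
      · rw [if_neg hg]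
    · rw [if_neg h]
      push Not at h
      obtain ⟨g, hg, hne⟩ := h
      symm
      exact Finset.prod_eq_zero (mem_univ g) (by rw [if_pos hg, if_neg hne])
  rw [show (fun S : I → Bool => if ∀ g ∈ A, S g = true then (1 : ℝ) else 0) =
    fun S => ∏ u, (if u ∈ A then (if S u = true then (1 : ℝ) else 0) else 1) from funext h2]
  rw [ex_prod_bit q (fun u b => if u ∈ A then (if b = true then (1 : ℝ) else 0) else 1)]
  rw [← Finset.prod_subset (Finset.subset_univ A)]
  · refine Finset.prod_congr rfl fun u hu => ?_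
    simp [hu]
  · intro u _ hu
    simp [hu]

/-- Few free switches. -/
theorem few_free {δ : ℝ} {dv : I → ℝ} (hδ0 : 0 ≤ δ) (hδ1 : δ ≤ 1 / 2) (hdv0 : ∀ u, 0 ≤ dv u) (hdv1 : ∀ u, dv u ≤ 1)
    {k : ℕ} {H : Finset I} {W : I → Finset I} (hdv : ∀ u ∈ H, ∀ b ∈ insert u (W u), dv b = δ)
    (hc : ∀ u ∈ H, (W u).card ≤ k) (hdH : ∀ u ∈ H, Disjoint (W u) H)
    (hd : ∀ u ∈ H, ∀ v ∈ H, u ≠ v → Disjoint (W u) (W v)) (m : ℕ) :
    ex dv (fun R => if (H.filter fun u => R u = true ∧ ∀ b ∈ W u, R b = true).card ≤ m then 1 else 0) ≤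
      (1 - δ ^ (k + 1) / 2) ^ H.card * 2 ^ m := by
  classical
  have h1 : ∀ R : I → Bool, (if (H.filter fun u => R u = true ∧ ∀ b ∈ W u, R b = true).card ≤ m then (1 : ℝ) else 0) ≤
      2 ^ m * ∏ u ∈ H, (if (R u = true ∧ ∀ b ∈ W u, R b = true) then (1 / 2 : ℝ) else 1) := by
    intro R
    rw [Finset.prod_ite, Finset.prod_const, Finset.prod_const_one, mul_one]
    split_ifs with h
    · have h2 : (1 / 2 : ℝ) ^ m ≤ (1 / 2 : ℝ) ^ (H.filter fun u => R u = true ∧ ∀ b ∈ W u, R b = true).card :=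
        pow_le_pow_of_le_one (by norm_num) (by norm_num) h
      have h3 : (2 : ℝ) ^ m * (1 / 2) ^ m = 1 := by rw [← mul_pow]; norm_num
      nlinarith [show (0 : ℝ) < 2 ^ m by positivity]
    · positivity
  refine (ex_mono hdv0 hdv1 h1).trans ?_
  rw [ex_mul, mul_comm]
  gcongr
  rw [indep_prod dv H (fun u => insert u (W u)) (fun u R => if (R u = true ∧ ∀ b ∈ W u, R b = true) then (1 / 2 : ℝ) else 1)]
  · rw [← Finset.prod_const]
    refine Finset.prod_le_prod (fun u _ => ex_nonneg hdv0 hdv1 fun R => by split_ifs <;> norm_num) fun u hu => ?_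
    have h4 : (fun R : I → Bool => if (R u = true ∧ ∀ b ∈ W u, R b = true) then (1 / 2 : ℝ) else 1) =
        fun R => 1 + (-(1 / 2)) * (if ∀ g ∈ insert u (W u), R g = true then (1 : ℝ) else 0) := by
      funext R
      by_cases h5 : R u = true ∧ ∀ b ∈ W u, R b = true
      · rw [if_pos h5, if_pos]
        · norm_num
        · intro g hg
          rcases Finset.mem_insert.1 hg with rfl | hg
          · exact h5.1
          · exact h5.2 g hg
      · rw [if_neg h5, if_neg]
        · norm_num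
        · intro h6
          apply h5
          exact ⟨h6 u (mem_insert_self _ _), fun b hb => h6 b (mem_insert_of_mem hb)⟩
    rw [h4, ex_add, ex_const, ex_mul, ex_all_true, Finset.prod_congr rfl (hdv u hu), Finset.prod_const]
    have h8 : δ ^ (k + 1) ≤ δ ^ (insert u (W u)).card := by
      refine pow_le_pow_of_le_one hδ0 (by linarith) ?_
      exact (Finset.card_insert_le _ _).trans (Nat.succ_le_succ (hc u hu))
    linarith
  · intro u hu v hv huv
    rw [Finset.disjoint_insert_left, Finset.disjoint_insert_right]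
    refine ⟨?_, ?_, hd u hu v hv huv⟩
    · rw [mem_insert, not_or]
      exact ⟨huv, fun h => Finset.disjoint_left.1 (hdH v hv) h hu⟩
    · exact fun h => Finset.disjoint_left.1 (hdH u hu) h hv
  · intro u _ R R' h
    have h9 : (R u = true ∧ ∀ b ∈ W u, R b = true) ↔ (R' u = true ∧ ∀ b ∈ W u, R' b = true) := by
      rw [h u (mem_insert_self _ _)]
      refine and_congr_right fun _ => ?_
      refine forall₂_congr fun b hb => ?_
      rw [h b (mem_insert_of_mem hb)]
    simp only [h9]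

end

/-- The numerical estimate. -/
theorem num_est (d : ℕ) : ∃ K : ℝ, 0 < K ∧ ∀ (p : ℝ) (h m : ℕ), 0 < p → p ≤ 1 → (m : ℝ) ≤ p * h / 4 →
    p * h / 4 < m + 1 → (1 - p / 2) ^ h * 2 ^ m + 1 / √((m : ℝ) + 1) ^ d ≤ K / √(p * ((h : ℝ) + 1)) ^ d := by
  refine ⟨4 ^ d * (d.factorial : ℝ) * Real.exp (1 / 4) + √5 ^ d, by positivity, ?_⟩
  intro p h m hp hp1 hm1 hm2
  have hh : (0 : ℝ) ≤ h := by positivity
  set y := p * (h : ℝ) with hy
  have hy0 : 0 ≤ y := by positivity
  have hx : 0 < p * ((h : ℝ) + 1) := by positivity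
  have hxy : p * ((h : ℝ) + 1) ≤ y + 1 := by rw [hy]; nlinarith
  have hs : 0 < √(p * ((h : ℝ) + 1)) := Real.sqrt_pos.2 hx
  have hs2 : 0 < √((m : ℝ) + 1) := Real.sqrt_pos.2 (by positivity)
  rw [le_div_iff₀ (by positivity), add_mul]
  refine add_le_add ?_ ?_
  · have h1 : (1 - p / 2) ^ h ≤ Real.exp (-(y / 2)) := by
      have h2 : 1 - p / 2 ≤ Real.exp (-(p / 2)) := by
        have := Real.add_one_le_exp (-(p / 2)); linarith
      calc (1 - p / 2) ^ h ≤ (Real.exp (-(p / 2))) ^ h := pow_le_pow_left₀ (by linarith) h2 h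
        _ = Real.exp (-(y / 2)) := by
          rw [← Real.exp_nat_mul]; congr 1; rw [hy]; ring
    have h3 : (2 : ℝ) ^ m ≤ Real.exp (y / 4) := by
      calc (2 : ℝ) ^ m ≤ (Real.exp 1) ^ m := by
            gcongr
            have := Real.add_one_le_exp (1 : ℝ); linarith
        _ = Real.exp m := by rw [← Real.exp_nat_mul, mul_one]
        _ ≤ Real.exp (y / 4) := Real.exp_le_exp.2 hm1
    have h4 : (1 - p / 2) ^ h * 2 ^ m ≤ Real.exp (-(y / 4)) := by
      calc (1 - p / 2) ^ h * 2 ^ m ≤ Real.exp (-(y / 2)) * Real.exp (y / 4) := by gcongr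
        _ = Real.exp (-(y / 4)) := by rw [← Real.exp_add]; congr 1; ring
    have h5 : √(p * ((h : ℝ) + 1)) ^ d ≤ (y + 1) ^ d := by
      refine pow_le_pow_left₀ hs.le ?_ d
      rw [Real.sqrt_le_left (by positivity)]
      nlinarith
    have h6 : (y + 1) ^ d ≤ 4 ^ d * (d.factorial : ℝ) * Real.exp (1 / 4) * Real.exp (y / 4) := by
      have h7 := Real.pow_div_factorial_le_exp ((y + 1) / 4) (by positivity) d
      rw [div_le_iff₀ (by positivity), div_pow, div_le_iff₀ (by positivity)] at h7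
      refine h7.trans (le_of_eq ?_)
      rw [show (y + 1) / 4 = 1 / 4 + y / 4 by ring, Real.exp_add]
      ring
    calc (1 - p / 2) ^ h * 2 ^ m * √(p * ((h : ℝ) + 1)) ^ d
        ≤ Real.exp (-(y / 4)) * (4 ^ d * (d.factorial : ℝ) * Real.exp (1 / 4) * Real.exp (y / 4)) := by
          gcongr
          exact h5.trans h6
      _ = 4 ^ d * (d.factorial : ℝ) * Real.exp (1 / 4) * (Real.exp (-(y / 4)) * Real.exp (y / 4)) := by ring
      _ = 4 ^ d * (d.factorial : ℝ) * Real.exp (1 / 4) := by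
          rw [← Real.exp_add, neg_add_cancel, Real.exp_zero, mul_one]
  · rw [one_div_mul_eq_div, div_le_iff₀ (by positivity), ← mul_pow]
    refine pow_le_pow_left₀ hs.le ?_ d
    rw [← Real.sqrt_mul (by norm_num)]
    apply Real.sqrt_le_sqrt
    have h8 : (0 : ℝ) ≤ m := by positivity
    nlinarith

theorem acon_q (d k : ℕ) : ∃ C : ℝ, 0 < C ∧ ∀ (I : Type) [Fintype I] [DecidableEq I] (q : I → ℝ) (δ : ℝ)
    (I₀ : Finset I) (f : (I → Bool) → (Fin d → ℤ)) (H : Finset I) (W : I → Finset I), 0 < δ → δ ≤ 1 / 2 →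
    (∀ u, 0 ≤ q u) → (∀ u, q u ≤ 1) → (∀ u, u ∉ I₀ → δ ≤ q u) → (∀ u, u ∉ I₀ → q u ≤ 1 - δ) → Sw f H W k →
    (∀ u ∈ H, u ∉ I₀) → (∀ u ∈ H, ∀ b ∈ W u, b ∉ I₀) →
    ex q (fun S : I → Bool => if f S = 0 then 1 else 0) ≤ C / √(δ ^ (k + 1) * ((H.card : ℝ) + 1)) ^ d := by
  classical
  obtain ⟨C, hC, hacon⟩ := acon d k
  obtain ⟨K, hK, hnum⟩ := num_est d
  refine ⟨(C + 1) * K, by positivity, ?_⟩
  intro I _ _ q δ I₀ f H W hδ0 hδ1 hq0' hq1' hq0 hq1 hS hHI hWI
  set dv : I → ℝ := fun u => if u ∈ I₀ then 0 else δ with hdv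
  have hd0 : ∀ u : I, (0 : ℝ) ≤ dv u := fun u => by simp only [hdv]; split_ifs <;> linarith
  have hd1 : ∀ u : I, dv u ≤ 1 := fun u => by simp only [hdv]; split_ifs <;> linarith
  have hd1' : ∀ u : I, dv u < 1 := fun u => by simp only [hdv]; split_ifs <;> linarith
  have hr0 : ∀ u : I, 0 ≤ (q u - dv u / 2) / (1 - dv u) := fun u => by
    by_cases hu : u ∈ I₀
    · simp only [hdv, hu, if_true]
      have := hq0' u
      norm_num
      exact this
    · simp only [hdv, hu, if_false]
      exact div_nonneg (by have := hq0 u hu; linarith) (by linarith)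
  have hr1 : ∀ u : I, (q u - dv u / 2) / (1 - dv u) ≤ 1 := fun u => by
    by_cases hu : u ∈ I₀
    · simp only [hdv, hu, if_true]
      have := hq1' u
      norm_num
      exact this
    · simp only [hdv, hu, if_false]
      rw [div_le_one (by linarith)]
      have := hq1 u hu; linarith
  have hdvH : ∀ u ∈ H, ∀ b ∈ insert u (W u), dv b = δ := by
    intro u hu b hb
    have : b ∉ I₀ := by
      rcases Finset.mem_insert.1 hb with rfl | hb
      · exact hHI _ hu
      · exact hWI u hu b hb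
    simp only [hdv, this, if_false]
  set X : (I → Bool) → Finset I := fun R => H.filter fun u => R u = true ∧ ∀ b ∈ W u, R b = true with hX
  set p := δ ^ (k + 1) with hp
  have hp0 : 0 < p := by positivity
  have hp1 : p ≤ 1 := pow_le_one₀ hδ0.le (by linarith)
  set m := ⌊p * H.card / 4⌋₊ with hm
  have hm1 : (m : ℝ) ≤ p * H.card / 4 := Nat.floor_le (by positivity)
  have hm2 : p * H.card / 4 < m + 1 := Nat.lt_floor_add_one _
  rw [← mixt q dv hd1']
  have h1 : ∀ R : I → Bool, ex (fun u => (q u - dv u / 2) / (1 - dv u))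
      (fun T => exh (fun ξ => if f (mix (supp R) ξ T) = 0 then (1 : ℝ) else 0)) ≤ C / √(((X R).card : ℝ) + 1) ^ d := by
    intro R
    exact ex_le_of_le hr0 hr1 fun T => hacon I _ _ W (sw_mix hS R T)
  have h1' : ∀ R : I → Bool, ex (fun u => (q u - dv u / 2) / (1 - dv u))
      (fun T => exh (fun ξ => if f (mix (supp R) ξ T) = 0 then (1 : ℝ) else 0)) ≤ 1 := by
    intro R
    refine ex_le_of_le hr0 hr1 fun T => ex_le_of_le (fun _ => by norm_num) (fun _ => by norm_num) fun ξ => ?_
    split_ifs <;> norm_num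
  have h2 : ∀ R : I → Bool, ex (fun u => (q u - dv u / 2) / (1 - dv u))
      (fun T => exh (fun ξ => if f (mix (supp R) ξ T) = 0 then (1 : ℝ) else 0)) ≤
      (if (X R).card ≤ m then 1 else 0) + C / √((m : ℝ) + 1) ^ d := by
    intro R
    have h5 : 0 ≤ C / √((m : ℝ) + 1) ^ d := by positivity
    by_cases h3 : (X R).card ≤ m
    · rw [if_pos h3]
      have := h1' R
      linarith
    · rw [if_neg h3, zero_add]
      refine (h1 R).trans ?_
      have h4 : (m : ℝ) ≤ ((X R).card : ℝ) := by exact_mod_cast (by omega : m ≤ (X R).card)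
      have h6 : 0 < √((m : ℝ) + 1) := Real.sqrt_pos.2 (by positivity)
      gcongr
  refine (ex_mono hd0 hd1 h2).trans ?_
  rw [ex_add, ex_const]
  have h3 := few_free hδ0.le hδ1 hd0 hd1 hdvH hS.card_le hS.disjH hS.disj m
  have h4 := hnum p H.card m hp0 hp1 hm1 hm2
  have h5 : (1 - p / 2) ^ H.card * 2 ^ m + C * (1 / √((m : ℝ) + 1) ^ d) ≤
      (C + 1) * ((1 - p / 2) ^ H.card * 2 ^ m + 1 / √((m : ℝ) + 1) ^ d) := by
    have h6 : 0 ≤ (1 - p / 2) ^ H.card * 2 ^ m := by
      have : 0 ≤ 1 - p / 2 := by linarith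
      positivity
    have h7 : 0 ≤ 1 / √((m : ℝ) + 1) ^ d := by positivity
    nlinarith
  calc _ ≤ (1 - p / 2) ^ H.card * 2 ^ m + C / √((m : ℝ) + 1) ^ d := by gcongr
    _ = (1 - p / 2) ^ H.card * 2 ^ m + C * (1 / √((m : ℝ) + 1) ^ d) := by ring
    _ ≤ (C + 1) * ((1 - p / 2) ^ H.card * 2 ^ m + 1 / √((m : ℝ) + 1) ^ d) := h5
    _ ≤ (C + 1) * (K / √(p * ((H.card : ℝ) + 1)) ^ d) := by gcongr
    _ = (C + 1) * K / √(p * ((H.card : ℝ) + 1)) ^ d := by ring

end CDB
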