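import Mathlib

/-!
# CDB.Col: colourings of pairs, good vertices, random tuples

`Sparse c I₀ s D`: every colour has out- and in-valency at most `s`, at most `s` pairs in every row and column have a colour in `I₀`, and two rows (columns) agree in at most `D` places.
For two vertices `x ≠ x'` and a tuple `a` the vertex `y` is good (`GoodY`) if the colours of the pairs `(a i, y)`, `(x, y)`, `(x', y)` are different, not in `I₀`, and for every other vertex `y'` with a pair `(z, y')`, `z ∈ {x, x', a i}`, of the colour of `(x, y)` at most one `i` is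
such that the colour of `(a i, y)` occurs at `y'`. `bad_count`: the number of the tuples `a` with at least `n/2` bad vertices.
-/

set_option linter.unusedSectionVars false

namespace CDB

open Finset

variable {V I : Type} [Fintype V] [DecidableEq V] [DecidableEq I]

/-- The colouring `c` is sparse. -/
structure Sparse (c : V → V → I) (I₀ : Finset I) (s D : ℕ) : Prop where
  pos : 1 ≤ s
  out : ∀ x u, (univ.filter fun y => c x y = u).card ≤ s
  inn : ∀ y u, (univ.filter fun x => c x y = u).card ≤ s
  out0 : ∀ x, (univ.filter fun y => c x y ∈ I₀).card ≤ s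
  inn0 : ∀ y, (univ.filter fun x => c x y ∈ I₀).card ≤ s
  row : ∀ x x', x ≠ x' → (univ.filter fun y => c x y = c x' y).card ≤ D
  col : ∀ y y', y ≠ y' → (univ.filter fun x => c x y = c x y').card ≤ D

/-- The colours at `y`. -/
def BB {k : ℕ} (c : V → V → I) (x x' : V) (a : Fin k → V) (y : V) : Finset I :=
  insert (c x y) (insert (c x' y) (univ.image fun j => c (a j) y))

/-- The switches at `y`. -/
def WW {k : ℕ} (c : V → V → I) (a : Fin k → V) (y : V) : Finset I := univ.image fun j => c (a j) y

/-- `y` is good. -/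
structure GoodY {k : ℕ} (c : V → V → I) (I₀ : Finset I) (x x' : V) (a : Fin k → V) (y : V) : Prop where
  g0 : c x y ∉ I₀
  g0' : ∀ j, c (a j) y ∉ I₀
  g1 : c x y ≠ c x' y
  g2 : ∀ j, c (a j) y ≠ c x y
  g2' : ∀ j, c (a j) y ≠ c x' y
  g3 : ∀ i j, i ≠ j → c (a i) y ≠ c (a j) y
  g4 : ∀ y', y' ≠ y → c x y ∈ BB c x x' a y' → ∀ i j, c (a i) y ∈ BB c x x' a y' → c (a j) y ∈ BB c x x' a y' → i = j

/-- Counting tuples one coordinate at a time. -/
theorem count_coord {k : ℕ} (i : Fin k) (Q : (Fin k → V) → Prop) [DecidablePred Q] (q : ℕ)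
    (h : ∀ a, (univ.filter fun v => Q (Function.update a i v)).card ≤ q) :
    (univ.filter Q).card * Fintype.card V ≤ q * Fintype.card V ^ k := by
  have h1 : (univ.filter Q).card * Fintype.card V =
      ((univ : Finset ((Fin k → V) × V)).filter fun p => Q (Function.update p.1 i p.2)).card := by
    have h2 : ((univ.filter Q) ×ˢ (univ : Finset V)).card = (univ.filter Q).card * Fintype.card V := by
      rw [Finset.card_product, card_univ]
    rw [← h2]
    refine Finset.card_bij (fun p _ => (Function.update p.1 i p.2, p.1 i)) ?_ ?_ ?_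
    · intro p hp
      simp only [mem_product, mem_filter, mem_univ, true_and, and_true] at hp
      simp only [mem_filter, mem_univ, true_and]
      simpa using hp
    · intro p _ p' _ hpp
      simp only [Prod.mk.injEq] at hpp
      refine Prod.ext ?_ ?_
      · funext j
        by_cases hj : j = i
        · subst hj; exact hpp.2
        · have := congrFun hpp.1 j
          simpa [Function.update_of_ne hj] using this
      · have := congrFun hpp.1 i
        simpa using this
    · intro p hp
      simp only [mem_filter, mem_univ, true_and] at hp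
      refine ⟨(Function.update p.1 i p.2, p.1 i), ?_, ?_⟩
      · simp only [mem_product, mem_filter, mem_univ, true_and, and_true]
        exact hp
      · simp
  rw [h1, Finset.card_filter, Fintype.sum_prod_type]
  refine (Finset.sum_le_sum fun a _ => ?_).trans (le_of_eq (a := ∑ _a : Fin k → V, q) ?_)
  · rw [← Finset.card_filter]
    exact h a
  · rw [Finset.sum_const, card_univ, Fintype.card_fun, Fintype.card_fin, smul_eq_mul, mul_comm]

/-- The vertices `x`, `x'` and `a j`, `j ≠ i`. -/
def ZZ {k : ℕ} (x x' : V) (a : Fin k → V) (i : Fin k) : Finset V :=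
  insert x (insert x' ((univ.filter fun j => j ≠ i).image a))

theorem ZZ_card {k : ℕ} (x x' : V) (a : Fin k → V) (i : Fin k) : (ZZ x x' a i).card ≤ k + 1 := by
  refine (Finset.card_insert_le _ _).trans (Nat.succ_le_succ ((Finset.card_insert_le _ _).trans ?_))
  have h1 : ((univ.filter fun j => j ≠ i).image a).card ≤ k - 1 := by
    refine Finset.card_image_le.trans (le_of_eq ?_)
    rw [Finset.filter_ne' univ i, Finset.card_erase_of_mem (mem_univ i), card_univ, Fintype.card_fin]
  have := i.2
  omega

theorem ZZ_update {k : ℕ} (x x' : V) (a : Fin k → V) (i : Fin k) (v : V) :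
    ZZ x x' (Function.update a i v) i = ZZ x x' a i := by
  unfold ZZ
  congr 2
  refine Finset.image_congr fun j hj => ?_
  simp only [coe_filter, mem_univ, true_and, Set.mem_ofPred_eq] at hj
  exact Function.update_of_ne hj _ _

/-- The coordinate `i` is bad for `y`. -/
def BadI {k : ℕ} (c : V → V → I) (I₀ : Finset I) (x x' y : V) (i : Fin k) (a : Fin k → V) : Prop :=
  c (a i) y ∈ I₀ ∨ (∃ z ∈ ZZ x x' a i, c (a i) y = c z y) ∨
  ∃ y', y' ≠ y ∧ (∃ z' ∈ ZZ x x' a i, c z' y' = c x y) ∧
    (c (a i) y = c (a i) y' ∨ ∃ z ∈ ZZ x x' a i, c (a i) y = c z y')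

/-- If no coordinate is bad, `y` is good. -/
theorem goodY_of {k : ℕ} {c : V → V → I} {I₀ : Finset I} {x x' y : V} {a : Fin k → V}
    (h0 : c x y ∉ I₀) (h1 : c x y ≠ c x' y) (h : ∀ i, ¬ BadI c I₀ x x' y i a) : GoodY c I₀ x x' a y := by
  have hxZ : ∀ i, x ∈ ZZ x x' a i := fun i => mem_insert_self _ _
  have hxZ' : ∀ i, x' ∈ ZZ x x' a i := fun i => mem_insert_of_mem (mem_insert_self _ _)
  have haZ : ∀ i j, j ≠ i → a j ∈ ZZ x x' a i := fun i j hj =>
    mem_insert_of_mem (mem_insert_of_mem (Finset.mem_image.2 ⟨j, by simp [hj], rfl⟩))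
  refine ⟨h0, fun j hj => h j (Or.inl hj), h1, fun j hj => h j (Or.inr (Or.inl ⟨x, hxZ j, hj⟩)),
    fun j hj => h j (Or.inr (Or.inl ⟨x', hxZ' j, hj⟩)),
    fun i j hij hc => h i (Or.inr (Or.inl ⟨a j, haZ i j hij.symm, hc⟩)), ?_⟩
  intro y' hy' hB i j hi hj
  by_contra hij
  -- the vertex through which `c x y` occurs at `y'`
  obtain ⟨l, hl⟩ : ∃ l : Fin k, (∃ z' ∈ ZZ x x' a l, c z' y' = c x y) ∧ c (a l) y ∈ BB c x x' a y' := by
    rw [BB, mem_insert, mem_insert, mem_image] at hB
    rcases hB with h2 | h2 | ⟨m, -, h2⟩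
    · exact ⟨i, ⟨x, hxZ i, h2.symm⟩, hi⟩
    · exact ⟨i, ⟨x', hxZ' i, h2.symm⟩, hi⟩
    · by_cases hm : m = i
      · exact ⟨j, ⟨a m, haZ j m (by rw [hm]; exact hij), h2⟩, hj⟩
      · exact ⟨i, ⟨a m, haZ i m hm, h2⟩, hi⟩
  obtain ⟨hz', hl2⟩ := hl
  refine h l (Or.inr (Or.inr ⟨y', hy', hz', ?_⟩))
  rw [BB, mem_insert, mem_insert, mem_image] at hl2
  rcases hl2 with h2 | h2 | ⟨m, -, h2⟩
  · exact Or.inr ⟨x, hxZ l, h2⟩
  · exact Or.inr ⟨x', hxZ' l, h2⟩
  · by_cases hm : m = l
    · rw [hm] at h2
      exact Or.inl h2.symm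
    · exact Or.inr ⟨a m, haZ l m hm, h2.symm⟩

open Classical in
/-- The number of the bad values of the coordinate `i`. -/
theorem badI_card {k : ℕ} {c : V → V → I} {I₀ : Finset I} {s D : ℕ} (hc : Sparse c I₀ s D) (x x' y : V)
    (i : Fin k) (a : Fin k → V) :
    (univ.filter fun v => BadI c I₀ x x' y i (Function.update a i v)).card ≤
      4 * (k + 1) ^ 2 * (s * (s + D)) := by
  set Z := ZZ x x' a i with hZ
  have hZc : Z.card ≤ k + 1 := ZZ_card x x' a i
  -- the `y'` which occur
  set Y : Finset V := (Z.biUnion fun z' => univ.filter fun y' => c z' y' = c x y).erase y with hY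
  have hYc : Y.card ≤ (k + 1) * s := by
    refine (Finset.card_le_card (Finset.erase_subset _ _)).trans (Finset.card_biUnion_le.trans ?_)
    refine (Finset.sum_le_sum fun z' _ => hc.out z' _).trans ?_
    rw [Finset.sum_const, smul_eq_mul]
    exact Nat.mul_le_mul_right _ hZc
  have hsub : (univ.filter fun v => BadI c I₀ x x' y i (Function.update a i v)) ⊆
      (univ.filter fun v => c v y ∈ I₀) ∪ ((Z.biUnion fun z => univ.filter fun v => c v y = c z y) ∪
        (Y.biUnion fun y' => (univ.filter fun v => c v y = c v y') ∪ Z.biUnion fun z => univ.filter fun v => c v y = c z y')) := by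
    intro v hv
    rw [mem_filter] at hv
    have hv' := hv.2
    unfold BadI at hv'
    rw [ZZ_update, Function.update_self, ← hZ] at hv'
    simp only [mem_union, mem_filter, mem_univ, true_and, mem_biUnion]
    rcases hv' with h | ⟨z, hz, h⟩ | ⟨y', hy', ⟨z', hz', h'⟩, h⟩
    · exact Or.inl h
    · exact Or.inr (Or.inl ⟨z, hz, h⟩)
    · refine Or.inr (Or.inr ⟨y', ?_, ?_⟩)
      · rw [hY, mem_erase, mem_biUnion]
        exact ⟨hy', z', hz', by simp [h']⟩
      · rcases h with h | ⟨z, hz, h⟩
        · exact Or.inl h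
        · exact Or.inr ⟨z, hz, h⟩
  have hY' : ∀ y' ∈ Y, ((univ.filter fun v => c v y = c v y') ∪ Z.biUnion fun z => univ.filter fun v => c v y = c z y').card ≤
      D + (k + 1) * s := by
    intro y' hy'
    have hne : y ≠ y' := (Finset.mem_erase.1 hy').1.symm
    refine (Finset.card_union_le _ _).trans (Nat.add_le_add (hc.col y y' hne) ?_)
    refine Finset.card_biUnion_le.trans ((Finset.sum_le_sum fun z _ => hc.inn y _).trans ?_)
    rw [Finset.sum_const, smul_eq_mul]
    exact Nat.mul_le_mul_right _ hZc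
  have h3 : (Z.biUnion fun z => univ.filter fun v => c v y = c z y).card ≤ (k + 1) * s := by
    refine Finset.card_biUnion_le.trans ((Finset.sum_le_sum fun z _ => hc.inn y _).trans ?_)
    rw [Finset.sum_const, smul_eq_mul]
    exact Nat.mul_le_mul_right _ hZc
  have h4 : (Y.biUnion fun y' => (univ.filter fun v => c v y = c v y') ∪ Z.biUnion fun z => univ.filter fun v => c v y = c z y').card ≤
      ((k + 1) * s) * (D + (k + 1) * s) := by
    refine Finset.card_biUnion_le.trans ((Finset.sum_le_sum hY').trans ?_)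
    rw [Finset.sum_const, smul_eq_mul]
    exact Nat.mul_le_mul_right _ hYc
  have h5 := (Finset.card_le_card hsub).trans ((Finset.card_union_le _ _).trans
    (Nat.add_le_add_left (Finset.card_union_le _ _) _))
  have h6 := hc.inn0 y
  have h7 : s + ((k + 1) * s + ((k + 1) * s) * (D + (k + 1) * s)) ≤ 4 * (k + 1) ^ 2 * (s * (s + D)) := by
    have hs := hc.pos
    have e1 : s ≤ (k + 1) ^ 2 * (s * (s + D)) := by
      calc s = 1 * (s * 1) := by ring
        _ ≤ (k + 1) ^ 2 * (s * (s + D)) := by
          refine Nat.mul_le_mul (Nat.one_le_pow _ _ (by omega)) (Nat.mul_le_mul_left _ (by omega))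
    have e2 : (k + 1) * s ≤ (k + 1) ^ 2 * (s * (s + D)) := by
      calc (k + 1) * s = (k + 1) * 1 * (s * 1) := by ring
        _ ≤ (k + 1) * (k + 1) * (s * (s + D)) := by
          refine Nat.mul_le_mul (Nat.mul_le_mul_left _ (by omega)) (Nat.mul_le_mul_left _ (by omega))
        _ = _ := by ring
    have e3 : ((k + 1) * s) * (D + (k + 1) * s) ≤ (k + 1) ^ 2 * (s * (s + D)) := by
      calc ((k + 1) * s) * (D + (k + 1) * s) ≤ ((k + 1) * s) * ((k + 1) * (s + D)) := by
            refine Nat.mul_le_mul_left _ ?_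
            nlinarith
        _ = _ := by ring
    nlinarith
  omega

open Classical in
/-- The number of the tuples with at least `n/2` bad vertices. -/
theorem bad_count {k : ℕ} {c : V → V → I} {I₀ : Finset I} {s D : ℕ} (hc : Sparse c I₀ s D) {x x' : V}
    (hxx : x ≠ x') :
    (univ.filter fun a : Fin k → V => Fintype.card V ≤ 2 * (univ.filter fun y => ¬ GoodY c I₀ x x' a y).card).card *
      Fintype.card V ≤ 8 * (k + 1) ^ 3 * (s * (s + D)) * Fintype.card V ^ k := by
  set n := Fintype.card V with hn
  set L := 4 * (k + 1) ^ 2 * (s * (s + D)) with hL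
  have hs := hc.pos
  -- for every tuple
  have h1 : ∀ a : Fin k → V, (univ.filter fun y => ¬ GoodY c I₀ x x' a y).card ≤
      (s + D) + ∑ y : V, ∑ i : Fin k, (if BadI c I₀ x x' y i a then 1 else 0) := by
    intro a
    have hsub : (univ.filter fun y => ¬ GoodY c I₀ x x' a y) ⊆
        ((univ.filter fun y => c x y ∈ I₀) ∪ (univ.filter fun y => c x y = c x' y)) ∪
          (univ.filter fun y => ∃ i, BadI c I₀ x x' y i a) := by
      intro y hy
      simp only [mem_filter, mem_univ, true_and, mem_union] at hy ⊢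
      by_contra hcon
      push Not at hcon
      exact hy (goodY_of hcon.1.1 hcon.1.2 hcon.2)
    refine (Finset.card_le_card hsub).trans ((Finset.card_union_le _ _).trans (Nat.add_le_add ?_ ?_))
    · exact (Finset.card_union_le _ _).trans (Nat.add_le_add (hc.out0 x) (hc.row x x' hxx))
    · rw [Finset.card_filter]
      refine Finset.sum_le_sum fun y _ => ?_
      split_ifs with h
      · obtain ⟨i, hi⟩ := h
        refine le_trans (le_of_eq ?_) (Finset.single_le_sum (f := fun i => if BadI c I₀ x x' y i a then 1 else 0)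
          (fun _ _ => Nat.zero_le _) (mem_univ i))
        simp [hi]
      · exact Nat.zero_le _
  -- the sum over the tuples
  have h2 : (∑ a : Fin k → V, (univ.filter fun y => ¬ GoodY c I₀ x x' a y).card) ≤
      ((s + D) + k * L) * n ^ k := by
    refine (Finset.sum_le_sum fun a _ => h1 a).trans ?_
    rw [Finset.sum_add_distrib, Finset.sum_const, card_univ, Fintype.card_fun, Fintype.card_fin, ← hn, smul_eq_mul]
    have h3 : ∑ a : Fin k → V, ∑ y : V, ∑ i : Fin k, (if BadI c I₀ x x' y i a then 1 else 0) ≤ k * L * n ^ k := by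
      rw [Finset.sum_comm]
      have h4 : ∀ y : V, (∑ a : Fin k → V, ∑ i : Fin k, (if BadI c I₀ x x' y i a then 1 else 0)) * n ≤ k * (L * n ^ k) := by
        intro y
        rw [Finset.sum_comm, Finset.sum_mul]
        refine (Finset.sum_le_sum fun i _ => ?_).trans (le_of_eq (a := ∑ _i : Fin k, L * n ^ k) ?_)
        · rw [← Finset.card_filter]
          exact count_coord i (fun a => BadI c I₀ x x' y i a) L fun a => badI_card hc x x' y i a
        · rw [Finset.sum_const, card_univ, Fintype.card_fin, smul_eq_mul]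
      rcases Nat.eq_zero_or_pos n with h0 | hpos
      · have hV : IsEmpty V := Fintype.card_eq_zero_iff.1 h0
        exact (hV.false x).elim
      · have h5 : (∑ y : V, ∑ a : Fin k → V, ∑ i : Fin k, (if BadI c I₀ x x' y i a then 1 else 0)) * n ≤
            (k * L * n ^ k) * n := by
          rw [Finset.sum_mul]
          refine (Finset.sum_le_sum fun y _ => h4 y).trans (le_of_eq ?_)
          rw [Finset.sum_const, card_univ, ← hn, smul_eq_mul]
          ring
        exact Nat.le_of_mul_le_mul_right h5 hpos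
    calc n ^ k * (s + D) + _ ≤ n ^ k * (s + D) + k * L * n ^ k := Nat.add_le_add_left h3 _
      _ = _ := by ring
  have h3 : (univ.filter fun a : Fin k → V => n ≤ 2 * (univ.filter fun y => ¬ GoodY c I₀ x x' a y).card).card * n ≤
      2 * (((s + D) + k * L) * n ^ k) := by
    calc _ = (univ.filter fun a : Fin k → V => n ≤ 2 * (univ.filter fun y => ¬ GoodY c I₀ x x' a y).card).card • n := by
          rw [smul_eq_mul]
      _ ≤ ∑ a ∈ (univ.filter fun a : Fin k → V => n ≤ 2 * (univ.filter fun y => ¬ GoodY c I₀ x x' a y).card),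
          2 * (univ.filter fun y => ¬ GoodY c I₀ x x' a y).card := by
          refine Finset.card_nsmul_le_sum _ _ _ fun a ha => ?_
          exact (Finset.mem_filter.1 ha).2
      _ ≤ ∑ a : Fin k → V, 2 * (univ.filter fun y => ¬ GoodY c I₀ x x' a y).card :=
          Finset.sum_le_sum_of_subset (Finset.subset_univ _)
      _ ≤ 2 * (((s + D) + k * L) * n ^ k) := by
          rw [← Finset.mul_sum]
          exact Nat.mul_le_mul_left _ h2
  refine h3.trans ?_
  have h4 : (s + D) + k * L ≤ 4 * (k + 1) ^ 3 * (s * (s + D)) := by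
    have e1 : s + D ≤ 4 * (k + 1) ^ 2 * (s * (s + D)) := by
      calc s + D = 1 * (1 * (s + D)) := by ring
        _ ≤ (4 * (k + 1) ^ 2) * (s * (s + D)) := by
          refine Nat.mul_le_mul ?_ (Nat.mul_le_mul_right _ hs)
          have := Nat.one_le_pow 2 (k + 1) (by omega)
          omega
    calc (s + D) + k * L ≤ 4 * (k + 1) ^ 2 * (s * (s + D)) + k * (4 * (k + 1) ^ 2 * (s * (s + D))) := by
          rw [hL]; exact Nat.add_le_add_right e1 _
      _ = 4 * (k + 1) ^ 3 * (s * (s + D)) := by ring
  calc 2 * (((s + D) + k * L) * n ^ k) ≤ 2 * ((4 * (k + 1) ^ 3 * (s * (s + D))) * n ^ k) := by gcongr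
    _ = _ := by ring

end CDB
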