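import Pool.Agent.CDB.Prob
import Pool.Agent.CDG.SBb

/-!
# CDB.Four: Fourier analysis on a finite abelian group

`four1`: the probability of `t + ∑ ξ_u v_u = 0` for uniform bits is at most the mean over the characters `χ` of `∏ |1 + χ(v_u)|/2`.
`four2`: the mean over `χ` of `(E |1 + χ(V(w))|/2)^(2m')` is the probability that `∑_(i<m') (ξ_i - ξ'_i) V(w_i) = 0` or less, and this is at most `C/√(m'+1)^d` by `CDG.sb_indep`, if the values of `V` span.
-/

set_option linter.unusedSectionVars false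

namespace CDB

open Finset

/-- All bits uniform. -/
noncomputable abbrev exh {I : Type} [Fintype I] [DecidableEq I] (F : (I → Bool) → ℝ) : ℝ := ex (fun _ => 1 / 2) F

theorem wt_half {I : Type} [Fintype I] [DecidableEq I] (S : I → Bool) :
    wt (fun _ : I => (1 / 2 : ℝ)) S = 1 / 2 ^ Fintype.card I := by
  unfold wt
  rw [Finset.prod_congr rfl (fun u _ => show (if S u = true then (1 / 2 : ℝ) else 1 - 1 / 2) = 1 / 2 by
    split_ifs <;> norm_num)]
  rw [Finset.prod_const, card_univ, one_div, inv_pow, one_div]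

theorem exh_eq {I : Type} [Fintype I] [DecidableEq I] (F : (I → Bool) → ℝ) :
    exh F = (∑ S : I → Bool, F S) / 2 ^ Fintype.card I := by
  unfold exh ex
  simp only [wt_half]
  rw [← Finset.mul_sum]
  ring

theorem exh_ind {I : Type} [Fintype I] [DecidableEq I] (P : (I → Bool) → Prop) [DecidablePred P] :
    exh (fun S => if P S then 1 else 0) = ((univ.filter P).card : ℝ) / 2 ^ Fintype.card I := by
  rw [exh_eq, Finset.sum_boole]

section

variable {𝒢 : Type} [AddCommGroup 𝒢] [Fintype 𝒢] [DecidableEq 𝒢]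

theorem char_sum {ι : Type*} (χ : AddChar 𝒢 ℂ) (s : Finset ι) (v : ι → 𝒢) :
    χ (∑ i ∈ s, v i) = ∏ i ∈ s, χ (v i) := by
  classical
  induction s using Finset.induction_on with
  | empty => simp
  | insert a s ha ih => rw [Finset.sum_insert ha, Finset.prod_insert ha, AddChar.map_add_eq_mul, ih]

theorem ind_eq (g : 𝒢) :
    ((if g = 0 then (1 : ℝ) else 0 : ℝ) : ℂ) = (∑ χ : AddChar 𝒢 ℂ, χ g) / (Fintype.card 𝒢 : ℂ) := by
  rw [AddChar.sum_apply_eq_ite]
  have : (Fintype.card 𝒢 : ℂ) ≠ 0 := by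
    exact_mod_cast (Fintype.card_pos_iff.2 ⟨(0 : 𝒢)⟩).ne'
  split_ifs
  · field_simp
    norm_num
  · simp

theorem four1 {I : Type} [Fintype I] [DecidableEq I] (v : I → 𝒢) (t : 𝒢) :
    exh (fun ξ : I → Bool => if t + ∑ u, (if ξ u = true then v u else 0) = 0 then 1 else 0) ≤
      (∑ χ : AddChar 𝒢 ℂ, ∏ u, ‖(1 + χ (v u)) / 2‖) / (Fintype.card 𝒢 : ℝ) := by
  have hG : (0 : ℝ) < (Fintype.card 𝒢 : ℝ) := by
    exact_mod_cast Fintype.card_pos_iff.2 ⟨(0 : 𝒢)⟩
  -- complex version
  have h1 : ((exh (fun ξ : I → Bool => if t + ∑ u, (if ξ u = true then v u else 0) = 0 then 1 else 0) : ℝ) : ℂ) =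
      (∑ χ : AddChar 𝒢 ℂ, χ t * ∏ u, ((1 + χ (v u)) / 2)) / (Fintype.card 𝒢 : ℂ) := by
    have h2 : ∀ ξ : I → Bool, ((if t + ∑ u, (if ξ u = true then v u else 0) = 0 then (1 : ℝ) else 0 : ℝ) : ℂ) =
        (∑ χ : AddChar 𝒢 ℂ, χ t * ∏ u, (if ξ u = true then χ (v u) else 1)) / (Fintype.card 𝒢 : ℂ) := by
      intro ξ
      rw [ind_eq (t + ∑ u, (if ξ u = true then v u else 0))]
      congr 1
      refine Finset.sum_congr rfl fun χ _ => ?_
      rw [AddChar.map_add_eq_mul, char_sum]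
      congr 1
      refine Finset.prod_congr rfl fun u _ => ?_
      split_ifs
      · rfl
      · exact AddChar.map_zero_eq_one χ
    rw [exh_eq, Complex.ofReal_div, Complex.ofReal_sum, Finset.sum_congr rfl fun ξ _ => h2 ξ, Complex.ofReal_pow,
      Complex.ofReal_ofNat]
    rw [← Finset.sum_div, Finset.sum_comm, div_div, mul_comm, ← div_div]
    congr 1
    rw [Finset.sum_div]
    refine Finset.sum_congr rfl fun χ _ => ?_
    rw [← Finset.mul_sum]
    have h5 := Finset.prod_univ_sum (fun _ : I => (univ : Finset Bool)) (fun u b => if b = true then χ (v u) else 1)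
    rw [Fintype.piFinset_univ] at h5
    rw [← h5]
    have h6 : ∀ u, ∑ b : Bool, (if b = true then χ (v u) else 1) = 2 * ((1 + χ (v u)) / 2) := by
      intro u
      rw [Fintype.sum_bool]
      simp
      ring
    rw [Finset.prod_congr rfl fun u _ => h6 u]
    rw [Finset.prod_mul_distrib, Finset.prod_const, card_univ]
    field_simp
  have h7 : ‖((exh (fun ξ : I → Bool => if t + ∑ u, (if ξ u = true then v u else 0) = 0 then 1 else 0) : ℝ) : ℂ)‖ ≤
      (∑ χ : AddChar 𝒢 ℂ, ∏ u, ‖(1 + χ (v u)) / 2‖) / (Fintype.card 𝒢 : ℝ) := by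
    rw [h1, norm_div, Complex.norm_natCast]
    gcongr
    refine (norm_sum_le _ _).trans (Finset.sum_le_sum fun χ _ => ?_)
    rw [norm_mul, AddChar.norm_apply, one_mul, norm_prod]
  rw [Complex.norm_real] at h7
  exact (Real.le_norm_self _).trans h7

/-- The square of the mean of `|1 + χ(v)|/2`. -/
theorem four_sq {I : Type} [Fintype I] [DecidableEq I] (V : (I → Bool) → 𝒢) (χ : AddChar 𝒢 ℂ) :
    ∃ r : ℝ, (exh (fun w => ‖(1 + χ (V w)) / 2‖)) ^ 2 ≤ r ∧
      (r : ℂ) = (∑ ω : (I ⊕ Bool → Bool), χ ((if ω (Sum.inr true) = true then V (ω ∘ Sum.inl) else 0) -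
        (if ω (Sum.inr false) = true then V (ω ∘ Sum.inl) else 0))) / 2 ^ Fintype.card (I ⊕ Bool) := by
  -- Cauchy-Schwarz
  have h1 : (exh (fun w => ‖(1 + χ (V w)) / 2‖)) ^ 2 ≤ exh (fun w => ‖(1 + χ (V w)) / 2‖ ^ 2) := by
    rw [exh_eq, exh_eq, div_pow]
    have h2 := sq_sum_le_card_mul_sum_sq (s := (univ : Finset (I → Bool))) (f := fun w => ‖(1 + χ (V w)) / 2‖)
    rw [card_univ, Fintype.card_fun, Fintype.card_bool] at h2
    push_cast at h2
    rw [div_le_div_iff₀ (by positivity) (by positivity)]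
    calc _ ≤ (2 ^ Fintype.card I * ∑ i : I → Bool, ‖(1 + χ (V i)) / 2‖ ^ 2) * 2 ^ Fintype.card I := by gcongr
      _ = _ := by ring
  refine ⟨_, h1, ?_⟩
  have h3 : ∀ g : 𝒢, ((‖(1 + χ g) / 2‖ ^ 2 : ℝ) : ℂ) = (2 + χ g + χ (-g)) / 4 := by
    intro g
    have h4 : (starRingEnd ℂ) (χ g) = χ (-g) := by
      have h5 : χ g * χ (-g) = 1 := by rw [← AddChar.map_add_eq_mul, add_neg_cancel, AddChar.map_zero_eq_one]
      have h6 : χ g * (starRingEnd ℂ) (χ g) = 1 := by
        rw [Complex.mul_conj, Complex.normSq_eq_norm_sq, AddChar.norm_apply]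
        norm_num
      have h7 : χ g ≠ 0 := by
        intro h0
        rw [h0, zero_mul] at h5
        exact zero_ne_one h5
      exact mul_left_cancel₀ h7 (h6.trans h5.symm)
    rw [Complex.ofReal_pow, ← Complex.mul_conj', map_div₀, map_add, map_one, h4, Complex.conj_ofNat]
    have h5 : χ g * χ (-g) = 1 := by rw [← AddChar.map_add_eq_mul, add_neg_cancel, AddChar.map_zero_eq_one]
    ring_nf
    rw [h5]
    ring
  have h8 : ((exh (fun w => ‖(1 + χ (V w)) / 2‖ ^ 2) : ℝ) : ℂ) =
      (∑ ω : (I ⊕ Bool → Bool), χ ((if ω (Sum.inr true) = true then V (ω ∘ Sum.inl) else 0) -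
        (if ω (Sum.inr false) = true then V (ω ∘ Sum.inl) else 0))) / 2 ^ Fintype.card (I ⊕ Bool) := by
    rw [exh_eq]
    push_cast
    have h9 : ∀ w : I → Bool, ((‖(1 + χ (V w)) / 2‖ : ℝ) : ℂ) ^ 2 = (2 + χ (V w) + χ (-(V w))) / 4 := by
      intro w
      rw [← h3]
      push_cast
      rfl
    simp only [h9]
    have h10 : ∑ ω : (I ⊕ Bool → Bool), χ ((if ω (Sum.inr true) = true then V (ω ∘ Sum.inl) else 0) -
        (if ω (Sum.inr false) = true then V (ω ∘ Sum.inl) else 0)) =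
        ∑ w : I → Bool, (2 + χ (V w) + χ (-(V w))) := by
      rw [← (Equiv.sumArrowEquivProdArrow I Bool Bool).symm.sum_comp, Fintype.sum_prod_type]
      refine Finset.sum_congr rfl fun w _ => ?_
      rw [← (Equiv.boolArrowEquivProd Bool).symm.sum_comp, Fintype.sum_prod_type]
      simp only [Fintype.sum_bool]
      have e1 : ∀ b : Bool → Bool, ((Equiv.sumArrowEquivProdArrow I Bool Bool).symm (w, b)) ∘ Sum.inl = w := by
        intro b; funext i; rfl
      have e2 : ∀ (b : Bool → Bool) (c : Bool), ((Equiv.sumArrowEquivProdArrow I Bool Bool).symm (w, b)) (Sum.inr c) = b c := by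
        intro b c; rfl
      simp only [e1, e2]
      simp [Equiv.boolArrowEquivProd]
      ring
    rw [h10, Fintype.card_sum, Fintype.card_bool, pow_add, ← Finset.sum_div]
    ring
  exact h8

end

/-- Reduction mod `N`. -/
def red {d : ℕ} (N : ℕ) (z : Fin d → ℤ) : Fin d → ZMod N := fun i => (z i : ZMod N)

theorem red_sum {d : ℕ} (N : ℕ) {ι : Type*} (s : Finset ι) (z : ι → (Fin d → ℤ)) :
    red N (∑ i ∈ s, z i) = ∑ i ∈ s, red N (z i) := by
  funext j
  simp [red, Finset.sum_apply]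

theorem red_sub {d : ℕ} (N : ℕ) (z z' : Fin d → ℤ) : red N (z - z') = red N z - red N z' := by
  funext j
  simp [red]

theorem red_add {d : ℕ} (N : ℕ) (z z' : Fin d → ℤ) : red N (z + z') = red N z + red N z' := by
  funext j
  simp [red]

theorem red_ite {d : ℕ} (N : ℕ) (P : Prop) [Decidable P] (z : Fin d → ℤ) :
    red N (if P then z else 0) = if P then red N z else 0 := by
  split_ifs
  · rfl
  · funext j; simp [red]

theorem red_eq_zero {d : ℕ} {N : ℕ} {z : Fin d → ℤ} (h : red N z = 0) (hb : ∀ i, |z i| < N) : z = 0 := by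
  funext i
  have h1 := congrFun h i
  simp only [red, Pi.zero_apply] at h1
  rw [ZMod.intCast_zmod_eq_zero_iff_dvd] at h1
  exact Int.eq_zero_of_abs_lt_dvd h1 (hb i)

private lemma basis_of_span {α : Type*} {d : ℕ} (w : α → (Fin d → ℤ))
    (h : Submodule.span ℚ (Set.range fun S : α => fun i => ((w S i : ℤ) : ℚ)) = ⊤) :
    ∃ S : Fin d → α, LinearIndependent ℚ (fun (j : Fin d) (i : Fin d) => ((w (S j) i : ℤ) : ℚ)) := by
  obtain ⟨b, hbs, hspan, hli⟩ := exists_linearIndependent ℚ (Set.range fun S : α => fun i => ((w S i : ℤ) : ℚ))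
  rw [h] at hspan
  let B : Module.Basis b ℚ (Fin d → ℚ) := Module.Basis.mk hli (by
    rw [Subtype.range_coe_subtype]
    simpa using hspan.ge)
  let e : Fin d ≃ b := (Pi.basisFun ℚ (Fin d)).indexEquiv B
  have hch : ∀ j : Fin d, ∃ S : α, (fun i => ((w S i : ℤ) : ℚ)) = (e j : Fin d → ℚ) := fun j => hbs (e j).2
  choose S hS using hch
  refine ⟨S, ?_⟩
  have h1 := hli.comp e e.injective
  have h2 : (fun (j : Fin d) (i : Fin d) => ((w (S j) i : ℤ) : ℚ)) = (Subtype.val : b → (Fin d → ℚ)) ∘ e := by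
    funext j
    exact hS j
  rw [h2]
  exact h1

/-- The sum of `m` independent copies of `(ξ - ξ') V(w)`. -/
private def cp {I : Type} {d : ℕ} (V : (I → Bool) → (Fin d → ℤ)) (m : ℕ) (S : Fin m × (I ⊕ Bool) → Bool) :
    Fin d → ℤ :=
  ∑ i : Fin m, ((if S (i, Sum.inr true) = true then V (fun b => S (i, Sum.inl b)) else 0) -
    (if S (i, Sum.inr false) = true then V (fun b => S (i, Sum.inl b)) else 0))

private lemma cp_incr {I : Type} [Fintype I] [DecidableEq I] {d : ℕ} (V : (I → Bool) → (Fin d → ℤ)) (m : ℕ)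
    (i : Fin m) (S : Fin m × (I ⊕ Bool) → Bool) :
    CDG.incr (cp V m) (i, Sum.inr true) S = V (fun b => S (i, Sum.inl b)) := by
  unfold CDG.incr cp
  rw [← Finset.sum_sub_distrib, Finset.sum_eq_single i]
  · have h1 : ∀ c, (fun b => Function.update S (i, Sum.inr true) c (i, Sum.inl b)) = fun b => S (i, Sum.inl b) := by
      intro c
      funext b
      rw [Function.update_of_ne (by simp)]
    have h2 : ∀ c, Function.update S (i, Sum.inr true) c (i, Sum.inr false) = S (i, Sum.inr false) := by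
      intro c
      rw [Function.update_of_ne (by simp)]
    simp only [h1, h2, Function.update_self, if_true, Bool.false_eq_true, if_false]
    abel
  · intro j _ hj
    have h1 : ∀ (c : Bool) (x : I ⊕ Bool), Function.update S (i, Sum.inr true) c (j, x) = S (j, x) := by
      intro c x
      rw [Function.update_of_ne (by simp [hj])]
    simp only [h1, sub_self]
  · intro h; exact absurd (mem_univ i) h

/-- The anticoncentration of the copies. -/
private lemma cp_small (d k : ℕ) : ∃ C : ℝ, 0 < C ∧ ∀ (I : Type) [Fintype I] [DecidableEq I]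
    (V : (I → Bool) → (Fin d → ℤ)) (A : Finset I) (m : ℕ), A.card ≤ k →
    (∀ S S' : I → Bool, (∀ g ∈ A, S g = S' g) → V S = V S') →
    Submodule.span ℚ (Set.range fun S : I → Bool => fun i => ((V S i : ℤ) : ℚ)) = ⊤ →
    ((univ.filter fun S : Fin m × (I ⊕ Bool) → Bool => cp V m S = 0).card : ℝ) ≤
      C * 2 ^ Fintype.card (Fin m × (I ⊕ Bool)) / √((m : ℝ) + 1) ^ d := by
  obtain ⟨C, hC, h⟩ := CDG.sb_indep d k
  refine ⟨C, hC, ?_⟩
  intro I _ _ V A m hA hloc hspan
  obtain ⟨Sb, hSb⟩ := basis_of_span V hspan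
  have hH : (((univ : Finset (Fin m)).image fun i => ((i, Sum.inr true) : Fin m × (I ⊕ Bool))).card : ℝ) = m := by
    rw [Finset.card_image_of_injective _ (by intro i j hij; simpa using hij)]
    simp
  have key := h (Fin m × (I ⊕ Bool)) (cp V m) ((univ : Finset (Fin m)).image fun i => (i, Sum.inr true))
    (fun g => A.image fun b => (g.1, Sum.inl b)) (fun j => V (Sb j)) hSb
    (by
      intro u _
      exact Finset.card_image_le.trans hA)
    (by
      intro u _ v hv hvN
      obtain ⟨i, -, rfl⟩ := Finset.mem_image.1 hv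
      obtain ⟨b, -, hb⟩ := Finset.mem_image.1 hvN
      simp at hb)
    (by
      intro u hu v hv huv
      obtain ⟨i, -, rfl⟩ := Finset.mem_image.1 hu
      obtain ⟨j, -, rfl⟩ := Finset.mem_image.1 hv
      rw [Finset.disjoint_left]
      intro g hg hg'
      obtain ⟨b, -, rfl⟩ := Finset.mem_image.1 hg
      obtain ⟨b', -, hb'⟩ := Finset.mem_image.1 hg'
      apply huv
      simp only [Prod.mk.injEq] at hb'
      rw [hb'.1])
    (by
      intro u hu S S' hS
      obtain ⟨i, -, rfl⟩ := Finset.mem_image.1 hu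
      rw [cp_incr, cp_incr]
      refine hloc _ _ fun g hg => ?_
      exact hS (i, Sum.inl g) (Finset.mem_image.2 ⟨g, hg, rfl⟩))
    (by
      intro u hu j
      obtain ⟨i, -, rfl⟩ := Finset.mem_image.1 hu
      refine ⟨fun g => Sum.elim (Sb j) (fun _ => false) g.2, ?_⟩
      rw [cp_incr]
      rfl)
  rw [hH] at key
  exact key

/-- The `L^(2m)` mean over the characters. -/
theorem four2 (d k : ℕ) : ∃ C : ℝ, 0 < C ∧ ∀ (I : Type) [Fintype I] [DecidableEq I]
    (V : (I → Bool) → (Fin d → ℤ)) (A : Finset I) (B N m : ℕ) [NeZero N], A.card ≤ k →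
    (∀ S S' : I → Bool, (∀ g ∈ A, S g = S' g) → V S = V S') →
    Submodule.span ℚ (Set.range fun S : I → Bool => fun i => ((V S i : ℤ) : ℚ)) = ⊤ →
    (∀ S i, |V S i| ≤ B) → m * B < N →
    (∑ χ : AddChar (Fin d → ZMod N) ℂ, (exh (fun w => ‖(1 + χ (red N (V w))) / 2‖)) ^ (2 * m)) /
      (Fintype.card (Fin d → ZMod N) : ℝ) ≤ C / √((m : ℝ) + 1) ^ d := by
  classical
  obtain ⟨C, hC, h⟩ := cp_small d k
  refine ⟨C, hC, ?_⟩
  intro I _ _ V A B N m _ hA hloc hspan hB hN
  have key := h I V A m hA hloc hspan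
  set 𝒢 := Fin d → ZMod N with h𝒢
  have hG : (0 : ℝ) < (Fintype.card 𝒢 : ℝ) := by
    exact_mod_cast Fintype.card_pos_iff.2 ⟨(0 : 𝒢)⟩
  have hch : ∀ χ : AddChar 𝒢 ℂ, ∃ r : ℝ, (exh (fun w => ‖(1 + χ (red N (V w))) / 2‖)) ^ 2 ≤ r ∧
      (r : ℂ) = (∑ ω : (I ⊕ Bool → Bool), χ ((if ω (Sum.inr true) = true then red N (V (ω ∘ Sum.inl)) else 0) -
        (if ω (Sum.inr false) = true then red N (V (ω ∘ Sum.inl)) else 0))) / 2 ^ Fintype.card (I ⊕ Bool) :=
    fun χ => four_sq (fun w => red N (V w)) χ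
  choose r hr1 hr2 using hch
  have hr0 : ∀ χ, 0 ≤ r χ := fun χ => le_trans (sq_nonneg _) (hr1 χ)
  -- the sum of the powers of `r`
  have h1 : ((∑ χ : AddChar 𝒢 ℂ, (r χ) ^ m) / (Fintype.card 𝒢 : ℝ)) =
      ((univ.filter fun p : Fin m → (I ⊕ Bool → Bool) => ∑ i, ((if p i (Sum.inr true) = true then red N (V (p i ∘ Sum.inl)) else 0) -
        (if p i (Sum.inr false) = true then red N (V (p i ∘ Sum.inl)) else 0)) = 0).card : ℝ) /
        (2 ^ Fintype.card (I ⊕ Bool)) ^ m := by
    have h2 : (((∑ χ : AddChar 𝒢 ℂ, (r χ) ^ m) / (Fintype.card 𝒢 : ℝ) : ℝ) : ℂ) =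
      (((univ.filter fun p : Fin m → (I ⊕ Bool → Bool) => ∑ i, ((if p i (Sum.inr true) = true then red N (V (p i ∘ Sum.inl)) else 0) -
        (if p i (Sum.inr false) = true then red N (V (p i ∘ Sum.inl)) else 0)) = 0).card : ℝ) /
        (2 ^ Fintype.card (I ⊕ Bool)) ^ m : ℝ) := by
      rw [Complex.ofReal_div, Complex.ofReal_div, Complex.ofReal_sum, ← Finset.sum_boole, Complex.ofReal_sum]
      have h3 : ∀ p : Fin m → (I ⊕ Bool → Bool), ((if ∑ i, ((if p i (Sum.inr true) = true then red N (V (p i ∘ Sum.inl)) else 0) -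
        (if p i (Sum.inr false) = true then red N (V (p i ∘ Sum.inl)) else 0)) = 0 then (1 : ℝ) else 0 : ℝ) : ℂ) =
          (∑ χ : AddChar 𝒢 ℂ, ∏ i, χ ((if p i (Sum.inr true) = true then red N (V (p i ∘ Sum.inl)) else 0) -
        (if p i (Sum.inr false) = true then red N (V (p i ∘ Sum.inl)) else 0))) / (Fintype.card 𝒢 : ℂ) := by
        intro p
        rw [ind_eq]
        congr 1
        exact Finset.sum_congr rfl fun χ _ => char_sum χ univ _
      rw [Finset.sum_congr rfl fun p _ => h3 p, ← Finset.sum_div, Finset.sum_comm]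
      have h4 : ∀ χ : AddChar 𝒢 ℂ, (((r χ) ^ m : ℝ) : ℂ) =
          (∑ p : Fin m → (I ⊕ Bool → Bool), ∏ i, χ ((if p i (Sum.inr true) = true then red N (V (p i ∘ Sum.inl)) else 0) -
        (if p i (Sum.inr false) = true then red N (V (p i ∘ Sum.inl)) else 0))) / (2 ^ Fintype.card (I ⊕ Bool)) ^ m := by
        intro χ
        rw [Complex.ofReal_pow, hr2 χ, div_pow, Fintype.sum_pow]
      rw [Finset.sum_congr rfl fun χ _ => h4 χ, ← Finset.sum_div]
      push_cast
      rw [div_div, div_div, mul_comm]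
    exact_mod_cast h2
  have h5 : (∑ χ : AddChar 𝒢 ℂ, (exh (fun w => ‖(1 + χ (red N (V w))) / 2‖)) ^ (2 * m)) ≤ ∑ χ : AddChar 𝒢 ℂ, (r χ) ^ m := by
    refine Finset.sum_le_sum fun χ _ => ?_
    rw [pow_mul]
    exact pow_le_pow_left₀ (sq_nonneg _) (hr1 χ) m
  have h6 : ((univ.filter fun p : Fin m → (I ⊕ Bool → Bool) => ∑ i, ((if p i (Sum.inr true) = true then red N (V (p i ∘ Sum.inl)) else 0) -
        (if p i (Sum.inr false) = true then red N (V (p i ∘ Sum.inl)) else 0)) = 0).card : ℝ) ≤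
      ((univ.filter fun S : Fin m × (I ⊕ Bool) → Bool => cp V m S = 0).card : ℝ) := by
    have h7 : (univ.filter fun p : Fin m → (I ⊕ Bool → Bool) => ∑ i, ((if p i (Sum.inr true) = true then red N (V (p i ∘ Sum.inl)) else 0) -
        (if p i (Sum.inr false) = true then red N (V (p i ∘ Sum.inl)) else 0)) = 0).card ≤
      (univ.filter fun S : Fin m × (I ⊕ Bool) → Bool => cp V m S = 0).card := by
      refine Finset.card_le_card_of_injOn (fun p => fun g => p g.1 g.2) ?_ ?_
      · intro p hp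
        simp only [coe_filter, mem_univ, true_and, Set.mem_ofPred_eq] at hp ⊢
        refine red_eq_zero (N := N) ?_ ?_
        · unfold cp
          rw [red_sum]
          rw [← hp]
          refine Finset.sum_congr rfl fun i _ => ?_
          rw [red_sub, red_ite, red_ite]
          rfl
        · intro j
          unfold cp
          rw [Finset.sum_apply]
          have h8 : |∑ i : Fin m, ((if p i (Sum.inr true) = true then V (fun b => p i (Sum.inl b)) else 0) -
            (if p i (Sum.inr false) = true then V (fun b => p i (Sum.inl b)) else 0)) j| ≤ ∑ _i : Fin m, (B : ℤ) := by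
            refine (Finset.abs_sum_le_sum_abs _ _).trans (Finset.sum_le_sum fun i _ => ?_)
            have h9 := hB (fun b => p i (Sum.inl b)) j
            have h10 : (0 : ℤ) ≤ B := by positivity
            split_ifs <;> simp [h9, h10]
          rw [Finset.sum_const, card_univ, Fintype.card_fin, nsmul_eq_mul] at h8
          have h11 : ((m : ℤ) * B) < N := by exact_mod_cast hN
          exact lt_of_le_of_lt h8 h11
      · intro p _ p' _ hpp
        funext i x
        exact congrFun hpp (i, x)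
    exact_mod_cast h7
  calc (∑ χ : AddChar 𝒢 ℂ, (exh (fun w => ‖(1 + χ (red N (V w))) / 2‖)) ^ (2 * m)) / (Fintype.card 𝒢 : ℝ)
      ≤ (∑ χ : AddChar 𝒢 ℂ, (r χ) ^ m) / (Fintype.card 𝒢 : ℝ) := by gcongr
    _ ≤ (C * 2 ^ Fintype.card (Fin m × (I ⊕ Bool)) / √((m : ℝ) + 1) ^ d) / (2 ^ Fintype.card (I ⊕ Bool)) ^ m := by
        rw [h1]
        gcongr
        exact h6.trans key
    _ = C / √((m : ℝ) + 1) ^ d := by
        have h12 : (2 : ℝ) ^ Fintype.card (Fin m × (I ⊕ Bool)) = (2 ^ Fintype.card (I ⊕ Bool)) ^ m := by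
          rw [Fintype.card_prod, Fintype.card_fin, mul_comm, pow_mul]
        rw [h12]
        field_simp

end CDB
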