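import Pool.Agent.CDB.Main

/-!
# CDB.Group: permutation groups

The orbitals of a finite group acting on `V` with stabilisers of order at most `s` and at most `f` fixed points of every element `≠ 1` form a sparse colouring with `D = s f`.
-/

set_option linter.unusedSectionVars false

namespace CDB

open Finset CDG

/-- The orbital of a pair. -/
def orb (Γ : Type) {V : Type} [Group Γ] [MulAction Γ V] (x y : V) : MulAction.orbitRel.Quotient Γ (V × V) :=
  Quotient.mk _ (x, y)

theorem orb_eq {Γ V : Type} [Group Γ] [MulAction Γ V] {x y x' y' : V} :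
    orb Γ x y = orb Γ x' y' ↔ ∃ g : Γ, g • x' = x ∧ g • y' = y := by
  unfold orb
  rw [Quotient.eq]
  constructor
  · intro h
    obtain ⟨g, hg⟩ := MulAction.mem_orbit_iff.1 (MulAction.orbitRel_apply.1 h)
    have := Prod.ext_iff.1 hg
    exact ⟨g, this.1, this.2⟩
  · rintro ⟨g, h1, h2⟩
    exact MulAction.orbitRel_apply.2 (MulAction.mem_orbit_iff.2 ⟨g, Prod.ext h1 h2⟩)

open Classical in
theorem sparse_orb {Γ V : Type} [Group Γ] [Fintype Γ] [MulAction Γ V] [Fintype V] [DecidableEq V]
    [DecidableEq (MulAction.orbitRel.Quotient Γ (V × V))] {s f : ℕ} (hs : 1 ≤ s)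
    (h1 : ∀ x : V, (univ.filter fun g : Γ => g • x = x).card ≤ s)
    (h2 : ∀ g : Γ, g ≠ 1 → (univ.filter fun x : V => g • x = x).card ≤ f) :
    Sparse (orb Γ : V → V → _) ∅ s (s * f) := by
  -- the elements which map `x` to `x'`
  have h3 : ∀ x x' : V, (univ.filter fun g : Γ => g • x = x').card ≤ s := by
    intro x x'
    rcases (univ.filter fun g : Γ => g • x = x').eq_empty_or_nonempty with h | ⟨g₀, hg₀⟩
    · rw [h, card_empty]; exact Nat.zero_le _
    · refine (Finset.card_le_card_of_injOn (fun g => g₀⁻¹ * g) ?_ ?_).trans (h1 x)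
      · intro g hg
        simp only [mem_filter, mem_univ, true_and] at hg₀
        simp only [coe_filter, mem_univ, true_and, Set.mem_ofPred_eq] at hg ⊢
        rw [mul_smul, hg, ← hg₀, inv_smul_smul]
      · intro a _ b _ hab
        exact mul_left_cancel hab
  refine ⟨hs, ?_, ?_, ?_, ?_, ?_, ?_⟩
  · intro x u
    rcases (univ.filter fun y => orb Γ x y = u).eq_empty_or_nonempty with h | ⟨y₀, hy₀⟩
    · rw [h, card_empty]; exact Nat.zero_le _
    · simp only [mem_filter, mem_univ, true_and] at hy₀
      refine le_trans (Finset.card_le_card (t := (univ.filter fun g : Γ => g • x = x).image fun g => g • y₀) ?_)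
        (Finset.card_image_le.trans (h1 x))
      intro y hy
      simp only [mem_filter, mem_univ, true_and] at hy
      obtain ⟨g, hg1, hg2⟩ := orb_eq.1 (hy.trans hy₀.symm)
      exact Finset.mem_image.2 ⟨g, by simp [hg1], hg2⟩
  · intro y u
    rcases (univ.filter fun x => orb Γ x y = u).eq_empty_or_nonempty with h | ⟨x₀, hx₀⟩
    · rw [h, card_empty]; exact Nat.zero_le _
    · simp only [mem_filter, mem_univ, true_and] at hx₀
      refine le_trans (Finset.card_le_card (t := (univ.filter fun g : Γ => g • y = y).image fun g => g • x₀) ?_)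
        (Finset.card_image_le.trans (h1 y))
      intro x hx
      simp only [mem_filter, mem_univ, true_and] at hx
      obtain ⟨g, hg1, hg2⟩ := orb_eq.1 (hx.trans hx₀.symm)
      exact Finset.mem_image.2 ⟨g, by simp [hg2], hg1⟩
  · intro x
    simp
  · intro y
    simp
  · intro x x' hxx
    have hsub : (univ.filter fun y => orb Γ x y = orb Γ x' y) ⊆
        (univ.filter fun g : Γ => g • x' = x).biUnion fun g => univ.filter fun y : V => g • y = y := by
      intro y hy
      simp only [mem_filter, mem_univ, true_and] at hy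
      obtain ⟨g, hg1, hg2⟩ := orb_eq.1 hy
      rw [mem_biUnion]
      exact ⟨g, by simp [hg1], by simp [hg2]⟩
    refine (Finset.card_le_card hsub).trans (Finset.card_biUnion_le.trans ?_)
    refine (Finset.sum_le_sum (g := fun _ => f) fun g hg => h2 g ?_).trans ?_
    · rintro rfl
      simp only [mem_filter, mem_univ, true_and, one_smul] at hg
      exact hxx hg.symm
    · rw [Finset.sum_const, smul_eq_mul]
      exact Nat.mul_le_mul_right _ (h3 x' x)
  · intro y y' hyy
    have hsub : (univ.filter fun x => orb Γ x y = orb Γ x y') ⊆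
        (univ.filter fun g : Γ => g • y' = y).biUnion fun g => univ.filter fun x : V => g • x = x := by
      intro x hx
      simp only [mem_filter, mem_univ, true_and] at hx
      obtain ⟨g, hg1, hg2⟩ := orb_eq.1 hx
      rw [mem_biUnion]
      exact ⟨g, by simp [hg2], by simp [hg1]⟩
    refine (Finset.card_le_card hsub).trans (Finset.card_biUnion_le.trans ?_)
    refine (Finset.sum_le_sum (g := fun _ => f) fun g hg => h2 g ?_).trans ?_
    · rintro rfl
      simp only [mem_filter, mem_univ, true_and, one_smul] at hg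
      exact hyy hg.symm
    · rw [Finset.sum_const, smul_eq_mul]
      exact Nat.mul_le_mul_right _ (h3 y' y)

open Classical in
/-- **Theorem B for permutation groups**: `G`-invariant noise `n^(-κ)` on any `G`-invariant digraph. -/
theorem main_group (ε : ℝ) (hε : 0 < ε) (A : ℕ) : ∃ (κ : ℝ) (K : ℕ) (C : ℝ), 0 < κ ∧ 0 < C ∧
    ∀ (Γ V : Type) [Group Γ] [Fintype Γ] [MulAction Γ V] [Fintype V] [Nonempty V]
    [Fintype (MulAction.orbitRel.Quotient Γ (V × V))] (s f : ℕ), 1 ≤ s →
    (∀ x : V, (univ.filter fun g : Γ => g • x = x).card ≤ s) →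
    (∀ g : Γ, g ≠ 1 → (univ.filter fun x : V => g • x = x).card ≤ f) →
    (s : ℝ) ^ 2 * (f + 1) ≤ (Fintype.card V : ℝ) ^ (1 - ε) →
    ∀ (δ : ℝ) (q : MulAction.orbitRel.Quotient Γ (V × V) → ℝ), (Fintype.card V : ℝ) ^ (-κ) ≤ δ →
    (∀ u, δ ≤ q u ∧ q u ≤ 1 - δ) →
    ex q (fun S => if Identified K (fun x y : V => S (orb Γ x y) = true) then 0 else 1) ≤
      C / (Fintype.card V : ℝ) ^ A := by
  obtain ⟨κ, K, C, hκ, hC, h⟩ := main ε hε A
  refine ⟨κ, K, C, hκ, hC, ?_⟩
  intro Γ V _ _ _ _ _ _ s f hs h1 h2 hsf δ q hδ hq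
  have hn : (0 : ℝ) < (Fintype.card V : ℝ) := by exact_mod_cast Fintype.card_pos
  have hδ0 : 0 < δ := lt_of_lt_of_le (Real.rpow_pos_of_pos hn _) hδ
  have hne : Nonempty (MulAction.orbitRel.Quotient Γ (V × V)) := ⟨orb Γ (Classical.arbitrary V) (Classical.arbitrary V)⟩
  have hδ1 : δ ≤ 1 / 2 := by
    have := hq (Classical.arbitrary _)
    linarith [this.1, this.2]
  refine h V _ (orb Γ) ∅ s (s * f) (sparse_orb hs h1 h2) ?_ δ q hδ hδ1 (fun u => by have := (hq u).1; linarith)
    (fun u => by have := (hq u).2; linarith) (fun u _ => (hq u).1) (fun u _ => (hq u).2)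
  refine le_trans (le_of_eq ?_) hsf
  push_cast
  ring

end CDB
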