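import Pool.Agent.CDB.Col
import Pool.Agent.CDG.Greedy

/-!
# CDB.Hid: the hidden set

`greedy2`: an independent set for a directed relation of bounded out-degree (some element has total degree at most twice the bound).
`hidden`: if at least half of the vertices are good, there is a set `H` of good vertices `y` with different colours `c x y`, of size at least `n/(12 (k+2)³ s²)`, such that no vertex has at the same time a colour from `{c x y} ∪ WW y` and the colour `c x y'`, `y ≠ y'` in `H`.
-/

set_option linter.unusedSectionVars false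

namespace CDB

open Finset

theorem greedy2 {α : Type*} [DecidableEq α] (R : α → α → Prop) [DecidableRel R] (Δ : ℕ) (U : Finset α)
    (h : ∀ u ∈ U, (U.filter fun v => v ≠ u ∧ R u v).card ≤ Δ) :
    ∃ H ⊆ U, (∀ u ∈ H, ∀ v ∈ H, u ≠ v → ¬ R u v) ∧ U.card ≤ (2 * Δ + 1) * H.card := by
  induction U using Finset.strongInduction with
  | H U ih =>
    rcases U.eq_empty_or_nonempty with rfl | hne
    · exact ⟨∅, by simp, by simp, by simp⟩
    · -- an element of small degree
      obtain ⟨u, hu, hdeg⟩ : ∃ u ∈ U, (U.filter fun v => v ≠ u ∧ R u v).card + (U.filter fun v => v ≠ u ∧ R v u).card ≤ 2 * Δ := by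
        have hsum : ∑ u ∈ U, ((U.filter fun v => v ≠ u ∧ R u v).card + (U.filter fun v => v ≠ u ∧ R v u).card) ≤
            ∑ _u ∈ U, 2 * Δ := by
          have e : ∑ u ∈ U, (U.filter fun v => v ≠ u ∧ R v u).card = ∑ u ∈ U, (U.filter fun v => v ≠ u ∧ R u v).card := by
            simp only [Finset.card_filter]
            rw [Finset.sum_comm]
            refine Finset.sum_congr rfl fun u _ => Finset.sum_congr rfl fun v _ => ?_
            simp only [ne_comm]
          rw [Finset.sum_add_distrib, e, ← two_mul, ← Finset.mul_sum]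
          exact Nat.mul_le_mul_left _ (Finset.sum_le_sum h)
        exact Finset.exists_le_of_sum_le hne hsum
      set T : Finset α := insert u ((U.filter fun v => v ≠ u ∧ R u v) ∪ (U.filter fun v => v ≠ u ∧ R v u)) with hT
      have hTc : T.card ≤ 2 * Δ + 1 :=
        (Finset.card_insert_le _ _).trans (Nat.succ_le_succ ((Finset.card_union_le _ _).trans hdeg))
      have hss : U \ T ⊂ U := by
        refine ⟨Finset.sdiff_subset, fun hcon => ?_⟩
        have := hcon hu
        simp [hT] at this
      obtain ⟨H, hHU, hH, hc⟩ := ih (U \ T) hss (fun w hw => by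
        refine (Finset.card_le_card ?_).trans (h w (Finset.sdiff_subset hw))
        exact Finset.filter_subset_filter _ Finset.sdiff_subset)
      have huH : u ∉ H := fun hh => by
        have := hHU hh
        simp [hT] at this
      have hsep : ∀ v ∈ H, ¬ R u v ∧ ¬ R v u := fun v hv => by
        have h1 := hHU hv
        have hvu : v ≠ u := by rintro rfl; exact huH hv
        simp only [hT, mem_sdiff, mem_insert, mem_union, mem_filter, not_or, not_and] at h1
        exact ⟨h1.2.2.1 h1.1 hvu, h1.2.2.2 h1.1 hvu⟩
      refine ⟨insert u H, ?_, ?_, ?_⟩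
      · intro w hw
        rcases Finset.mem_insert.1 hw with rfl | hw
        · exact hu
        · exact Finset.sdiff_subset (hHU hw)
      · intro v hv w hw hvw
        rcases Finset.mem_insert.1 hv with hv' | hv' <;> rcases Finset.mem_insert.1 hw with hw' | hw'
        · exact absurd (hv'.trans hw'.symm) hvw
        · rw [hv']; exact (hsep w hw').1
        · rw [hw']; exact (hsep v hv').2
        · exact hH v hv' w hw' hvw
      · rw [Finset.card_insert_of_notMem huH]
        have : U.card ≤ (U \ T).card + T.card := by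
          rw [← Finset.card_union_of_disjoint Finset.sdiff_disjoint]
          exact Finset.card_le_card (by intro x hx; by_cases hxT : x ∈ T <;> simp [hx, hxT])
        nlinarith

variable {V I : Type} [Fintype V] [DecidableEq V] [DecidableEq I]

/-- The bits of `y`. -/
def TT {k : ℕ} (c : V → V → I) (x : V) (a : Fin k → V) (y : V) : Finset I := insert (c x y) (WW c a y)

/-- Conflict. -/
def Rc {k : ℕ} (c : V → V → I) (x x' : V) (a : Fin k → V) (y y' : V) : Prop :=
  ∃ b ∈ TT c x a y, ∃ y'', b ∈ BB c x x' a y'' ∧ c x y' ∈ BB c x x' a y''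

theorem BB_count {k : ℕ} {c : V → V → I} {I₀ : Finset I} {s D : ℕ} (hc : Sparse c I₀ s D) (x x' : V)
    (a : Fin k → V) (b : I) : (univ.filter fun y => b ∈ BB c x x' a y).card ≤ (k + 2) * s := by
  have hsub : (univ.filter fun y => b ∈ BB c x x' a y) ⊆
      (univ.filter fun y => c x y = b) ∪ ((univ.filter fun y => c x' y = b) ∪
        (univ : Finset (Fin k)).biUnion fun j => univ.filter fun y => c (a j) y = b) := by
    intro y hy
    simp only [BB, mem_filter, mem_univ, true_and, mem_insert, mem_image] at hy
    simp only [mem_union, mem_filter, mem_univ, true_and, mem_biUnion]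
    rcases hy with h | h | ⟨j, h⟩
    · exact Or.inl h.symm
    · exact Or.inr (Or.inl h.symm)
    · exact Or.inr (Or.inr ⟨j, h⟩)
  have h1 := (Finset.card_le_card hsub).trans ((Finset.card_union_le _ _).trans
    (Nat.add_le_add_left (Finset.card_union_le _ _) _))
  have h2 : ((univ : Finset (Fin k)).biUnion fun j => univ.filter fun y => c (a j) y = b).card ≤ k * s := by
    refine Finset.card_biUnion_le.trans ((Finset.sum_le_sum fun j _ => hc.out (a j) b).trans ?_)
    simp
  have h3 := hc.out x b
  have h4 := hc.out x' b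
  calc _ ≤ s + (s + k * s) := by omega
    _ = (k + 2) * s := by ring

theorem BB_card {k : ℕ} (c : V → V → I) (x x' : V) (a : Fin k → V) (y : V) : (BB c x x' a y).card ≤ k + 2 := by
  refine (Finset.card_insert_le _ _).trans (Nat.succ_le_succ ((Finset.card_insert_le _ _).trans
    (Nat.succ_le_succ (Finset.card_image_le.trans ?_))))
  simp

theorem WW_card {k : ℕ} (c : V → V → I) (a : Fin k → V) (y : V) : (WW c a y).card ≤ k := by
  refine Finset.card_image_le.trans ?_
  simp

open Classical in
/-- The hidden set. -/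
theorem hidden {k : ℕ} {c : V → V → I} {I₀ : Finset I} {s D : ℕ} (hc : Sparse c I₀ s D) {x x' : V}
    {a : Fin k → V} (hgood : 2 * (univ.filter fun y => ¬ GoodY c I₀ x x' a y).card < Fintype.card V) :
    ∃ H : Finset V, (∀ y ∈ H, GoodY c I₀ x x' a y) ∧ (∀ y ∈ H, ∀ y' ∈ H, y ≠ y' → c x y ≠ c x y') ∧
      (∀ y ∈ H, ∀ y' ∈ H, y ≠ y' → ¬ Rc c x x' a y y') ∧
      Fintype.card V ≤ 12 * (k + 2) ^ 3 * s ^ 2 * H.card := by
  set n := Fintype.card V with hn
  have hs := hc.pos
  set Y : Finset V := univ.filter fun y => GoodY c I₀ x x' a y with hY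
  have hYc : n ≤ 2 * Y.card := by
    have : Y.card + (univ.filter fun y => ¬ GoodY c I₀ x x' a y).card = n := by
      rw [hn, ← card_univ]; exact Finset.card_filter_add_card_filter_not _
    omega
  -- different colours
  obtain ⟨Y', hY'Y, hY', hY'c⟩ := CDG.greedy (fun y y' : V => c x y = c x y') (fun _ _ h => h.symm) s Y
    (fun u _ => by
      refine (Finset.card_le_card (t := univ.filter fun y => c x y = c x u) ?_).trans (hc.out x _)
      intro v hv
      simp only [mem_filter, mem_univ, true_and] at hv ⊢
      exact hv.2.symm)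
  -- conflicts
  set Δ := (k + 1) * ((k + 2) * s * (k + 2)) with hΔ
  have hdeg : ∀ y ∈ Y', (Y'.filter fun y' => y' ≠ y ∧ Rc c x x' a y y').card ≤ Δ := by
    intro y _
    have h1 : (Y'.filter fun y' => y' ≠ y ∧ Rc c x x' a y y').card ≤
        ((TT c x a y).biUnion fun b => (univ.filter fun y'' => b ∈ BB c x x' a y'').biUnion fun y'' => BB c x x' a y'').card := by
      refine Finset.card_le_card_of_injOn (fun y' => c x y') ?_ ?_
      · intro y' hy'
        have hR := (Finset.mem_filter.1 (mem_coe.1 hy')).2.2
        obtain ⟨b, hb, y'', h1, h2⟩ := hR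
        exact mem_coe.2 (Finset.mem_biUnion.2 ⟨b, hb, Finset.mem_biUnion.2 ⟨y'', by simp [h1], h2⟩⟩)
      · intro y₁ h₁ y₂ h₂ h12
        by_contra hne
        exact hY' y₁ (Finset.mem_filter.1 (mem_coe.1 h₁)).1 y₂ (Finset.mem_filter.1 (mem_coe.1 h₂)).1 hne h12
    refine h1.trans (Finset.card_biUnion_le.trans ?_)
    have h2 : ∀ b ∈ TT c x a y, ((univ.filter fun y'' => b ∈ BB c x x' a y'').biUnion fun y'' => BB c x x' a y'').card ≤
        (k + 2) * s * (k + 2) := by
      intro b _
      refine Finset.card_biUnion_le.trans ((Finset.sum_le_sum fun y'' _ => BB_card c x x' a y'').trans ?_)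
      rw [Finset.sum_const, smul_eq_mul]
      exact Nat.mul_le_mul_right _ (BB_count hc x x' a b)
    refine (Finset.sum_le_sum h2).trans ?_
    rw [Finset.sum_const, smul_eq_mul]
    refine Nat.mul_le_mul_right _ ?_
    exact (Finset.card_insert_le _ _).trans (Nat.succ_le_succ (WW_card c a y))
  obtain ⟨H, hHY, hH, hHc⟩ := greedy2 (Rc c x x' a) Δ Y' hdeg
  refine ⟨H, fun y hy => (Finset.mem_filter.1 (hY'Y (hHY hy))).2, fun y hy y' hy' hne => hY' y (hHY hy) y' (hHY hy') hne,
    hH, ?_⟩
  calc n ≤ 2 * Y.card := hYc
    _ ≤ 2 * ((s + 1) * Y'.card) := by gcongr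
    _ ≤ 2 * ((2 * s) * ((2 * Δ + 1) * H.card)) := by
        gcongr
        omega
    _ ≤ 2 * ((2 * s) * ((3 * ((k + 2) * ((k + 2) * s * (k + 2)))) * H.card)) := by
        gcongr
        have h1 : Δ ≤ (k + 2) * ((k + 2) * s * (k + 2)) := by
          rw [hΔ]; exact Nat.mul_le_mul_right _ (by omega)
        have h2 : 1 ≤ (k + 2) * ((k + 2) * s * (k + 2)) := by
          have : 0 < (k + 2) * ((k + 2) * s * (k + 2)) := by positivity
          exact this
        omega
    _ = 12 * (k + 2) ^ 3 * s ^ 2 * H.card := by ring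

end CDB
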