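import Pool.Agent.CDG.Defs
import Pool.Agent.WLIter.WL

/-!
# CDB.WL: a digraph whose vertices have different counts is identified

`FC A t x c c'` is the number of the `y` with the arcs `c i` to the vertices `t i` and the arcs `c'` to `x`. If these counts differ for any two vertices then the digraph `A` is identified by the WL algorithm of dimension (number of the `t i`) + 1 in 4 rounds (`identified_of`).
The proof is that of `CDG.WLId`.
-/

namespace CDB

open Finset Pool.Agent.WLIter CDG

/-- The arcs between `x` and `y`. -/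
def rel2 {V : Type} (A : V → V → Bool) (x y : V) : Bool × Bool := (A x y, A y x)

/-- The counts. -/
def FC {V : Type} [Fintype V] {m : ℕ} (A : V → V → Bool) (t : Fin m → V) (x : V) (c : Fin m → Bool × Bool)
    (c' : Bool × Bool) : ℕ :=
  (univ.filter fun y => (∀ i, rel2 A (t i) y = c i) ∧ rel2 A x y = c').card

/-- Every statistic is a function of the counts. -/
theorem stat_of_FC {V : Type} [Fintype V] {m : ℕ} {A : V → V → Bool} {t : Fin m → V} {x x' : V}
    (h : FC A t x = FC A t x') (ψ : (Fin m → Bool × Bool) → Bool × Bool → ℤ) :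
    ∑ y, ψ (fun i => rel2 A (t i) y) (rel2 A x y) = ∑ y, ψ (fun i => rel2 A (t i) y) (rel2 A x' y) := by
  have key : ∀ z : V, ∑ y, ψ (fun i => rel2 A (t i) y) (rel2 A z y) =
      ∑ p : (Fin m → Bool × Bool) × (Bool × Bool), FC A t z p.1 p.2 • ψ p.1 p.2 := by
    intro z
    unfold FC
    rw [← Finset.sum_fiberwise (s := univ) (g := fun y : V => ((fun i => rel2 A (t i) y, rel2 A z y) :
      (Fin m → Bool × Bool) × (Bool × Bool)))]
    refine Finset.sum_congr rfl fun p _ => ?_
    rw [← Finset.sum_const]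
    refine Finset.sum_congr ?_ ?_
    · ext y
      simp only [mem_filter, mem_univ, true_and]
      constructor
      · intro hy
        rw [← hy]
        exact ⟨fun i => rfl, rfl⟩
      · rintro ⟨h1, h2⟩
        exact Prod.ext (funext h1) h2
    · intro y hy
      simp only [mem_filter, mem_univ, true_and] at hy
      rw [← hy.2, funext hy.1]
  rw [key, key, h]

private def sn {j : ℕ} {V : Type} (t : Fin (j + 1) → V) (x : V) : Fin (j + 2) → V :=
  Fin.snoc (α := fun _ => V) t x

private lemma sn_last {j : ℕ} {V : Type} (t : Fin (j + 1) → V) (x : V) : sn t x (Fin.last (j + 1)) = x := by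
  simp [sn]

private lemma sn_cast {j : ℕ} {V : Type} (t : Fin (j + 1) → V) (x : V) (i : Fin (j + 1)) :
    sn t x (Fin.castSucc i) = t i := by
  simp [sn]

private lemma sn_upd {j : ℕ} {V : Type} (t : Fin (j + 1) → V) (x w : V) :
    Function.update (sn t x) (Fin.last (j + 1)) w = sn t w := by
  unfold sn
  exact Fin.update_snoc_last (α := fun _ => V) ..

private lemma sn_upd0_last {j : ℕ} {V : Type} (t : Fin (j + 1) → V) (x w : V) :
    Function.update (sn t x) (Fin.castSucc 0) w (Fin.last (j + 1)) = x := by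
  rw [Function.update_of_ne (Fin.castSucc_lt_last 0).ne', sn_last]

private lemma WL_at {k : ℕ} {V V' : Type} [Fintype V] [DecidableEq V] [Fintype V'] [DecidableEq V']
    {A : V → V → Prop} {B : V' → V' → Prop} {x : Fin k → V} {y : Fin k → V'}
    (h : wl (dgStr k A) 0 x = wl (dgStr k B) 0 y) :
    (∀ i j, x i = x j ↔ y i = y j) ∧ (∀ i j, A (x i) (x j) ↔ B (y i) (y j)) := by
  have h1 := Prod.ext_iff.1 h
  refine ⟨fun i j => ?_, fun i j => ?_⟩
  · have := congrFun (congrFun h1.1 i) j
    exact iff_of_eq this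
  · have := congrFun (congrFun (congrFun h1.2 id) i) j
    exact iff_of_eq this

private lemma WL_rel {V : Type} {A : V → V → Bool} {x y x' y' : V}
    (h1 : A x y = true ↔ A x' y' = true) (h2 : A y x = true ↔ A y' x' = true) :
    rel2 A x y = rel2 A x' y' := by
  unfold rel2
  rw [Bool.eq_iff_iff.2 h1, Bool.eq_iff_iff.2 h2]

private lemma WL_F {V : Type} [Fintype V] [DecidableEq V] {j : ℕ} {A : V → V → Bool}
    {t : Fin (j + 1) → V} {x x' : V}
    (h : wl (dgStr (j + 2) (fun x y : V => A x y = true)) 1 (sn t x) =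
      wl (dgStr (j + 2) (fun x y : V => A x y = true)) 1 (sn t x')) :
    FC A t x = FC A t x' := by
  obtain ⟨-, e, he⟩ := (wl_succ_iff _ _ 0 _ _).1 h
  have h1 : ∀ w i, rel2 A (t i) w = rel2 A (t i) (e w) := by
    intro w i
    have h2 := he w (Fin.last (j + 1))
    rw [sn_upd, sn_upd] at h2
    obtain ⟨-, h3⟩ := WL_at h2
    have a := h3 (Fin.castSucc i) (Fin.last (j + 1))
    have b := h3 (Fin.last (j + 1)) (Fin.castSucc i)
    simp only [sn_cast, sn_last] at a b
    exact WL_rel a b
  have h2 : ∀ w, rel2 A x w = rel2 A x' (e w) := by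
    intro w
    obtain ⟨-, h3⟩ := WL_at (he w (Fin.castSucc 0))
    have a := h3 (Fin.last (j + 1)) (Fin.castSucc 0)
    have b := h3 (Fin.castSucc 0) (Fin.last (j + 1))
    simp only [sn_upd0_last, Function.update_self] at a b
    exact WL_rel a b
  funext c c'
  unfold FC
  refine Finset.card_bijective e e.bijective fun w => ?_
  simp only [mem_filter, mem_univ, true_and]
  rw [← h2 w]
  constructor
  · rintro ⟨ha, hb⟩
    exact ⟨fun i => by rw [← h1 w i]; exact ha i, hb⟩
  · rintro ⟨ha, hb⟩
    exact ⟨fun i => by rw [h1 w i]; exact ha i, hb⟩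

theorem identified_of {V : Type} [Fintype V] [DecidableEq V] {j : ℕ} (A : V → V → Bool)
    (t : Fin (j + 1) → V) (h : ∀ x x' : V, x ≠ x' → FC A t x ≠ FC A t x') :
    Identified (j + 2) (fun x y : V => A x y = true) := by
  have hinj : ∀ x x' : V, wl (dgStr (j + 2) (fun x y : V => A x y = true)) 2 (sn t x) =
      wl (dgStr (j + 2) (fun x y : V => A x y = true)) 2 (sn t x') → x = x' := by
    intro x x' hw
    by_contra hne
    exact h x x' hne (WL_F (wl_of_succ _ _ 1 _ _ hw))
  intro V' _ _ B hm
  have hV : Nonempty V := ⟨t 0⟩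
  have hmem : wl (dgStr (j + 2) (fun x y : V => A x y = true)) 4 (sn t (t 0)) ∈
      wlMultiset (dgStr (j + 2) B) 4 := by
    rw [← hm]
    exact Multiset.mem_map_of_mem _ (Finset.mem_univ _)
  obtain ⟨y', -, hy'⟩ := Multiset.mem_map.1 hmem
  set t' : Fin (j + 1) → V' := Fin.init (α := fun _ => V') y' with ht'
  have hsn : y' = sn t' (y' (Fin.last (j + 1))) := by
    unfold sn
    rw [ht', Fin.snoc_init_self]
  obtain ⟨-, e, he⟩ := (wl_succ_iff _ _ 3 _ _).1 hy'.symm
  have h3 : ∀ w, wl (dgStr (j + 2) (fun x y : V => A x y = true)) 3 (sn t w) =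
      wl (dgStr (j + 2) B) 3 (sn t' (e w)) := by
    intro w
    have := he w (Fin.last (j + 1))
    rw [hsn, sn_upd, sn_upd] at this
    exact this
  refine ⟨e, fun x y => ?_⟩
  obtain ⟨-, f, hf⟩ := (wl_succ_iff _ _ 2 _ _).1 (h3 x)
  have h4 := hf y (Fin.last (j + 1))
  rw [sn_upd, sn_upd] at h4
  have h5 : e.symm (f y) = y := by
    have h6 := wl_of_succ _ _ 2 _ _ (h3 (e.symm (f y)))
    rw [Equiv.apply_symm_apply] at h6
    exact hinj _ _ (h6.trans h4.symm)
  have h6 : f y = e y := by
    rw [← h5, Equiv.apply_symm_apply, h5]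
  have h7 := hf y (Fin.castSucc 0)
  rw [h6] at h7
  obtain ⟨-, h8⟩ := WL_at (wl_of_le _ _ (Nat.zero_le 2) _ _ h7)
  have a := h8 (Fin.last (j + 1)) (Fin.castSucc 0)
  simp only [sn_upd0_last, Function.update_self] at a
  exact a

end CDB
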