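import Pool.Agent.CDB.Swt
import Pool.Agent.CDB.WL

/-!
# CDB.Main: random fusions of sparse colourings are identified by bounded-dimensional WL

`blocks`: a tuple of `b` blocks of `k` vertices such that every pair of vertices has a block for which at least half of the vertices are good.
`main_bound`: the probability that the counts of some two vertices agree is at most `C n^(-A)`; `main`: identification.
-/

set_option linter.unusedSectionVars false

namespace CDB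

open Finset CDG

open Classical in
theorem blocks {V I : Type} [Fintype V] [DecidableEq V] [DecidableEq I] [Nonempty V] {k b : ℕ} {c : V → V → I}
    {I₀ : Finset I} {s D : ℕ} (hc : Sparse c I₀ s D)
    (hn : Fintype.card V ^ 2 * (8 * (k + 1) ^ 3 * (s * (s + D))) ^ b < Fintype.card V ^ b) :
    ∃ T : Fin b → Fin k → V, ∀ x x' : V, x ≠ x' → ∃ β,
      2 * (univ.filter fun y => ¬ GoodY c I₀ x x' (T β) y).card < Fintype.card V := by
  set n := Fintype.card V with hn'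
  have hn0 : 0 < n := Fintype.card_pos
  set M := 8 * (k + 1) ^ 3 * (s * (s + D)) with hM
  by_contra hcon
  push Not at hcon
  -- the bad tuples of a pair
  let B : V × V → Finset (Fin k → V) := fun p =>
    univ.filter fun a : Fin k → V => n ≤ 2 * (univ.filter fun y => ¬ GoodY c I₀ p.1 p.2 a y).card
  have hcov : (univ : Finset (Fin b → Fin k → V)) ⊆
      ((univ : Finset (V × V)).filter fun p => p.1 ≠ p.2).biUnion fun p => Fintype.piFinset fun _ => B p := by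
    intro T _
    obtain ⟨x, x', hxx, hT⟩ := hcon T
    rw [mem_biUnion]
    refine ⟨(x, x'), by simp [hxx], ?_⟩
    rw [Fintype.mem_piFinset]
    intro β
    simp only [B, mem_filter, mem_univ, true_and]
    exact hT β
  have h1 : (n ^ k) ^ b ≤ ∑ p ∈ (univ : Finset (V × V)).filter (fun p => p.1 ≠ p.2), (B p).card ^ b := by
    have h2 := (Finset.card_le_card hcov).trans Finset.card_biUnion_le
    rw [card_univ, Fintype.card_fun, Fintype.card_fun, Fintype.card_fin, Fintype.card_fin, ← hn'] at h2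
    refine h2.trans (Finset.sum_le_sum fun p _ => le_of_eq ?_)
    rw [Fintype.card_piFinset_const]
  have h2 : ∀ p ∈ (univ : Finset (V × V)).filter (fun p => p.1 ≠ p.2), (B p).card ^ b * n ^ b ≤ M ^ b * (n ^ k) ^ b := by
    intro p hp
    rw [← mul_pow, ← mul_pow]
    exact Nat.pow_le_pow_left (bad_count hc (Finset.mem_filter.1 hp).2) b
  have h3 : (n ^ k) ^ b * n ^ b ≤ (n ^ 2) * (M ^ b * (n ^ k) ^ b) := by
    calc (n ^ k) ^ b * n ^ b ≤ (∑ p ∈ (univ : Finset (V × V)).filter (fun p => p.1 ≠ p.2), (B p).card ^ b) * n ^ b := by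
          gcongr
      _ = ∑ p ∈ (univ : Finset (V × V)).filter (fun p => p.1 ≠ p.2), (B p).card ^ b * n ^ b := Finset.sum_mul _ _ _
      _ ≤ ∑ _p ∈ (univ : Finset (V × V)).filter (fun p => p.1 ≠ p.2), M ^ b * (n ^ k) ^ b := Finset.sum_le_sum h2
      _ = ((univ : Finset (V × V)).filter (fun p => p.1 ≠ p.2)).card * (M ^ b * (n ^ k) ^ b) := by
          rw [Finset.sum_const, smul_eq_mul]
      _ ≤ (n ^ 2) * (M ^ b * (n ^ k) ^ b) := by
          gcongr
          refine (Finset.card_le_univ _).trans (le_of_eq ?_)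
          rw [Fintype.card_prod, sq]
  have h4 : (n ^ k) ^ b * n ^ b ≤ (n ^ k) ^ b * (n ^ 2 * M ^ b) := by
    calc _ ≤ (n ^ 2) * (M ^ b * (n ^ k) ^ b) := h3
      _ = _ := by ring
  have h5 : n ^ b ≤ n ^ 2 * M ^ b := Nat.le_of_mul_le_mul_left h4 (by positivity)
  omega

/-- The counts determine the statistics. -/
theorem ff_of_FC {V I : Type} [Fintype V] [DecidableEq V] [Fintype I] [DecidableEq I] {k m : ℕ} {c : V → V → I}
    {S : I → Bool} {t : Fin m → V} (a : Fin k → V) (e : Fin k → Fin m) (ha : ∀ j, t (e j) = a j) {x x' : V}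
    (h : FC (fun x y => S (c x y)) t x = FC (fun x y => S (c x y)) t x') : ff c x x' a S = 0 := by
  funext i
  have h1 := stat_of_FC h (fun d d' => if ∀ j, (d (e j)).1 = pat k i j then bi d'.1 else 0)
  simp only [rel2, ha] at h1
  simp only [ff, Pi.zero_apply]
  rw [← sub_eq_zero, ← Finset.sum_sub_distrib] at h1
  rw [← h1]
  refine Finset.sum_congr rfl fun y _ => ?_
  unfold phi
  split_ifs <;> simp

theorem dd_ge (k : ℕ) : k ≤ dd (k + 1) := by
  have h1 : Function.Injective (fun j : Fin k => (⟨fun m => decide (m = 0 ∨ m = j.succ), by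
      have : ({0, j.succ} : Finset (Fin (k + 1))) ⊆ univ.filter fun m => decide (m = 0 ∨ m = j.succ) = true := by
        intro m hm
        simpa using hm
      refine le_trans (le_of_eq ?_) (Finset.card_le_card this)
      rw [Finset.card_pair (Fin.succ_ne_zero j).symm]⟩ : Pat (k + 1))) := by
    intro i j hij
    have h2 := congrFun (congrArg Subtype.val hij) i.succ
    simp only [or_true, decide_true] at h2
    have h3 := of_decide_eq_true h2.symm
    rcases h3 with h3 | h3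
    · exact absurd h3 (Fin.succ_ne_zero i)
    · exact Fin.succ_injective k h3
  have h2 := Fintype.card_le_of_injective _ h1
  rwa [Fintype.card_fin] at h2

/-- The bound for one pair. -/
theorem pair_bound (k : ℕ) : ∃ C : ℝ, 0 < C ∧ ∀ (V I : Type) [Fintype V] [DecidableEq V] [Nonempty V] [Fintype I]
    [DecidableEq I] (c : V → V → I) (I₀ : Finset I) (s D : ℕ) (δ : ℝ) (q : I → ℝ), Sparse c I₀ s D →
    0 < δ → δ ≤ 1 / 2 → (∀ u, 0 ≤ q u) → (∀ u, q u ≤ 1) → (∀ u, u ∉ I₀ → δ ≤ q u) → (∀ u, u ∉ I₀ → q u ≤ 1 - δ) →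
    ∀ (x x' : V) (a : Fin k → V),
    2 * Nat.card {y // ¬ GoodY c I₀ x x' a y} < Fintype.card V →
    ex q (fun S : I → Bool => if ff c x x' a S = 0 then 1 else 0) ≤
      C / √(δ ^ (k + 1) * ((Fintype.card V : ℝ) / (s : ℝ) ^ 2)) ^ (dd k) := by
  classical
  obtain ⟨C, hC, h⟩ := acon_q (dd k) k
  refine ⟨C * √(12 * (k + 2) ^ 3) ^ (dd k), by positivity, ?_⟩
  intro V I _ _ _ _ _ c I₀ s D δ q hc hδ0 hδ1 hq0' hq1' hq0 hq1 x x' a hgood
  have hgood' : 2 * (univ.filter fun y => ¬ GoodY c I₀ x x' a y).card < Fintype.card V := by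
    rw [Nat.card_eq_fintype_card, Fintype.card_subtype] at hgood
    exact hgood
  obtain ⟨H, hH1, hH2, hH3, hH4⟩ := hidden hc hgood'
  obtain ⟨W, hW1, hW2, hW3, hW4⟩ := sw_ff H hH1 hH2 hH3
  have key := h I q δ I₀ (ff c x x' a) (H.image (c x)) W hδ0 hδ1 hq0' hq1' hq0 hq1 hW1 hW2 hW3
  refine key.trans ?_
  rw [hW4]
  have hs : (0 : ℝ) < (s : ℝ) := by exact_mod_cast hc.pos
  have hn : (0 : ℝ) < (Fintype.card V : ℝ) := by exact_mod_cast Fintype.card_pos
  have h1 : (Fintype.card V : ℝ) ≤ 12 * (k + 2) ^ 3 * s ^ 2 * H.card := by exact_mod_cast hH4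
  set L : ℝ := 12 * ((k : ℝ) + 2) ^ 3 with hL
  have hLpos : 0 < L := by positivity
  have h2 : δ ^ (k + 1) * ((Fintype.card V : ℝ) / (s : ℝ) ^ 2) ≤ L * (δ ^ (k + 1) * ((H.card : ℝ) + 1)) := by
    have h3 : (Fintype.card V : ℝ) / (s : ℝ) ^ 2 ≤ L * ((H.card : ℝ) + 1) := by
      rw [div_le_iff₀ (by positivity)]
      calc (Fintype.card V : ℝ) ≤ 12 * (k + 2) ^ 3 * s ^ 2 * H.card := h1
        _ = L * H.card * s ^ 2 := by rw [hL]; ring
        _ ≤ L * ((H.card : ℝ) + 1) * s ^ 2 := by gcongr; linarith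
    calc δ ^ (k + 1) * ((Fintype.card V : ℝ) / (s : ℝ) ^ 2) ≤ δ ^ (k + 1) * (L * ((H.card : ℝ) + 1)) := by gcongr
      _ = _ := by ring
  have hp1 : 0 < √(δ ^ (k + 1) * ((H.card : ℝ) + 1)) := Real.sqrt_pos.2 (by positivity)
  have hp2 : 0 < √(δ ^ (k + 1) * ((Fintype.card V : ℝ) / (s : ℝ) ^ 2)) := Real.sqrt_pos.2 (by positivity)
  rw [div_le_div_iff₀ (by positivity) (by positivity)]
  have h4 : √(δ ^ (k + 1) * ((Fintype.card V : ℝ) / (s : ℝ) ^ 2)) ≤ √L * √(δ ^ (k + 1) * ((H.card : ℝ) + 1)) := by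
    rw [← Real.sqrt_mul hLpos.le]
    exact Real.sqrt_le_sqrt h2
  calc C * √(δ ^ (k + 1) * ((Fintype.card V : ℝ) / (s : ℝ) ^ 2)) ^ (dd k)
      ≤ C * (√L * √(δ ^ (k + 1) * ((H.card : ℝ) + 1))) ^ (dd k) := by gcongr
    _ = C * √L ^ (dd k) * √(δ ^ (k + 1) * ((H.card : ℝ) + 1)) ^ (dd k) := by rw [mul_pow]; ring

open Classical in
/-- **Main bound**: with `t` depending only on the colouring, the counts of all the vertices are different with high probability. -/
theorem main_bound (ε : ℝ) (hε : 0 < ε) (A : ℕ) : ∃ (κ : ℝ) (m : ℕ) (C : ℝ), 0 < κ ∧ 0 < C ∧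
    ∀ (V I : Type) [Fintype V] [DecidableEq V] [Nonempty V] [Fintype I] [DecidableEq I] (c : V → V → I)
    (I₀ : Finset I) (s D : ℕ), Sparse c I₀ s D →
    (s : ℝ) * (s + D) ≤ (Fintype.card V : ℝ) ^ (1 - ε) →
    ∃ t : Fin (m + 1) → V, ∀ (δ : ℝ) (q : I → ℝ), (Fintype.card V : ℝ) ^ (-κ) ≤ δ → δ ≤ 1 / 2 →
    (∀ u, 0 ≤ q u) → (∀ u, q u ≤ 1) → (∀ u, u ∉ I₀ → δ ≤ q u) → (∀ u, u ∉ I₀ → q u ≤ 1 - δ) →
    ex q (fun S : I → Bool => if ∀ x x' : V, x ≠ x' →
      FC (fun x y => S (c x y)) t x ≠ FC (fun x y => S (c x y)) t x' then 0 else 1) ≤ C / (Fintype.card V : ℝ) ^ A := by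
  -- parameters
  obtain ⟨d₀, hd₀⟩ := exists_nat_gt (4 * (A + 2) / ε)
  set k := d₀ + 1 with hk
  obtain ⟨b₀, hb₀⟩ := exists_nat_gt (3 / ε)
  set b := b₀ + 1 with hb
  obtain ⟨C₁, hC₁, hpair⟩ := pair_bound k
  set κ : ℝ := ε / (2 * (k + 1)) with hκ
  have hκpos : 0 < κ := by positivity
  set M₀ : ℕ := (8 * (k + 1) ^ 3) ^ b with hM₀
  obtain ⟨m, hm⟩ : ∃ m, b * k = m + 1 := ⟨b * k - 1, by
    have : 0 < b * k := by positivity
    omega⟩
  refine ⟨κ, m, C₁ + (M₀ : ℝ) ^ A, hκpos, by positivity, ?_⟩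
  intro V I _ _ _ _ _ c I₀ s D hc hsD
  set n := Fintype.card V with hn
  have hn0 : 0 < n := Fintype.card_pos
  have hnr : (0 : ℝ) < n := by exact_mod_cast hn0
  have hn1 : (1 : ℝ) ≤ n := by exact_mod_cast hn0
  have hs : (0 : ℝ) < (s : ℝ) := by exact_mod_cast hc.pos
  rcases Nat.lt_or_ge M₀ n with hbig | hsmall
  swap
  · -- small `n`
    refine ⟨fun _ => Classical.arbitrary V, fun δ q _ _ hq0 hq1 _ _ => ?_⟩
    have h1 : ex q (fun S : I → Bool => if ∀ x x' : V, x ≠ x' →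
      FC (fun x y => S (c x y)) (fun _ : Fin (m + 1) => Classical.arbitrary V) x ≠
        FC (fun x y => S (c x y)) (fun _ : Fin (m + 1) => Classical.arbitrary V) x' then (0 : ℝ) else 1) ≤ 1 :=
      ex_le_of_le hq0 hq1 fun S => by split_ifs <;> norm_num
    refine h1.trans ?_
    rw [le_div_iff₀ (by positivity), one_mul]
    have h2 : (n : ℝ) ^ A ≤ (M₀ : ℝ) ^ A := pow_le_pow_left₀ hnr.le (by exact_mod_cast hsmall) A
    linarith
  -- the blocks
  have hblk : n ^ 2 * (8 * (k + 1) ^ 3 * (s * (s + D))) ^ b < n ^ b := by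
    have h1 : ((n ^ 2 * (8 * (k + 1) ^ 3 * (s * (s + D))) ^ b : ℕ) : ℝ) < ((n ^ b : ℕ) : ℝ) := by
      push_cast
      have h2 : ((8 : ℝ) * (k + 1) ^ 3 * (s * (s + D))) ^ b ≤ (M₀ : ℝ) * ((n : ℝ) ^ (1 - ε)) ^ b := by
        rw [mul_pow, hM₀]
        push_cast
        gcongr
      have h3 : ((n : ℝ) ^ (1 - ε)) ^ b * (n : ℝ) ^ (3 : ℝ) ≤ (n : ℝ) ^ b := by
        rw [← Real.rpow_natCast ((n : ℝ) ^ (1 - ε)) b, ← Real.rpow_mul hnr.le, ← Real.rpow_add hnr,
          ← Real.rpow_natCast (n : ℝ) b]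
        apply Real.rpow_le_rpow_of_exponent_le hn1
        have h4 : 3 < ε * b₀ := by
          rw [div_lt_iff₀ hε] at hb₀
          linarith
        have h5 : (b : ℝ) = b₀ + 1 := by rw [hb]; push_cast; ring
        nlinarith
      have h6 : (n : ℝ) ^ (3 : ℝ) = (n : ℝ) ^ 3 := by
        rw [← Real.rpow_natCast]; norm_num
      rw [h6] at h3
      have h7 : (M₀ : ℝ) < n := by exact_mod_cast hbig
      have hpos : 0 < ((n : ℝ) ^ (1 - ε)) ^ b := by positivity
      calc (n : ℝ) ^ 2 * ((8 : ℝ) * (k + 1) ^ 3 * (s * (s + D))) ^ b ≤ (n : ℝ) ^ 2 * ((M₀ : ℝ) * ((n : ℝ) ^ (1 - ε)) ^ b) := by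
            gcongr
        _ < (n : ℝ) ^ 2 * ((n : ℝ) * ((n : ℝ) ^ (1 - ε)) ^ b) := by gcongr
        _ = ((n : ℝ) ^ (1 - ε)) ^ b * (n : ℝ) ^ 3 := by ring
        _ ≤ (n : ℝ) ^ b := h3
    exact_mod_cast h1
  obtain ⟨T, hT⟩ := blocks (k := k) (b := b) hc hblk
  let e : Fin b × Fin k ≃ Fin (m + 1) := finProdFinEquiv.trans (finCongr hm)
  refine ⟨fun i => T (e.symm i).1 (e.symm i).2, fun δ q hδ hδ1 hq0' hq1' hq0 hq1 => ?_⟩
  set t : Fin (m + 1) → V := fun i => T (e.symm i).1 (e.symm i).2 with ht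
  have hδ0 : 0 < δ := lt_of_lt_of_le (Real.rpow_pos_of_pos hnr _) hδ
  -- for every pair
  choose! β hβ using hT
  have hpp : ∀ x x' : V, x ≠ x' → ex q (fun S : I → Bool => if ff c x x' (T (β x x')) S = 0 then 1 else 0) ≤
      C₁ / (n : ℝ) ^ (A + 2) := by
    intro x x' hxx
    have h1 := hpair V I c I₀ s D δ q hc hδ0 hδ1 hq0' hq1' hq0 hq1 x x' (T (β x x')) (by
      rw [Nat.card_eq_fintype_card, Fintype.card_subtype]
      exact hβ x x' hxx)
    refine h1.trans ?_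
    have h2 : (n : ℝ) ^ (ε / 2) ≤ δ ^ (k + 1) * ((n : ℝ) / (s : ℝ) ^ 2) := by
      have h3 : (n : ℝ) ^ (-(ε / 2)) ≤ δ ^ (k + 1) := by
        calc (n : ℝ) ^ (-(ε / 2)) = ((n : ℝ) ^ (-κ)) ^ (k + 1) := by
              rw [← Real.rpow_natCast, ← Real.rpow_mul hnr.le]
              congr 1
              rw [hκ]
              push_cast
              field_simp
          _ ≤ δ ^ (k + 1) := pow_le_pow_left₀ (Real.rpow_nonneg hnr.le _) hδ _
      have h4 : (n : ℝ) ^ ε ≤ (n : ℝ) / (s : ℝ) ^ 2 := by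
        rw [le_div_iff₀ (by positivity)]
        have h5 : (s : ℝ) ^ 2 ≤ (n : ℝ) ^ (1 - ε) := by
          refine le_trans ?_ hsD
          have : (0 : ℝ) ≤ D := by positivity
          nlinarith
        calc (n : ℝ) ^ ε * (s : ℝ) ^ 2 ≤ (n : ℝ) ^ ε * (n : ℝ) ^ (1 - ε) := by gcongr
          _ = n := by rw [← Real.rpow_add hnr]; norm_num
      calc (n : ℝ) ^ (ε / 2) = (n : ℝ) ^ (-(ε / 2)) * (n : ℝ) ^ ε := by
            rw [← Real.rpow_add hnr]; congr 1; ring
        _ ≤ δ ^ (k + 1) * ((n : ℝ) / (s : ℝ) ^ 2) := by gcongr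
    have h5 : (n : ℝ) ^ (A + 2) ≤ √(δ ^ (k + 1) * ((n : ℝ) / (s : ℝ) ^ 2)) ^ (dd k) := by
      have h6 : (n : ℝ) ^ (ε / 4) ≤ √(δ ^ (k + 1) * ((n : ℝ) / (s : ℝ) ^ 2)) := by
        rw [Real.le_sqrt (Real.rpow_nonneg hnr.le _) (by positivity), ← Real.rpow_natCast, ← Real.rpow_mul hnr.le]
        refine le_trans (le_of_eq ?_) h2
        congr 1
        push_cast
        ring
      calc (n : ℝ) ^ (A + 2) ≤ ((n : ℝ) ^ (ε / 4)) ^ (dd k) := by
            rw [← Real.rpow_natCast, ← Real.rpow_natCast, ← Real.rpow_mul hnr.le]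
            apply Real.rpow_le_rpow_of_exponent_le hn1
            have h7 : (d₀ : ℝ) ≤ dd k := by exact_mod_cast dd_ge d₀
            have h8 : 4 * (A + 2) < d₀ * ε := by
              rwa [div_lt_iff₀ hε] at hd₀
            push_cast
            nlinarith
        _ ≤ _ := pow_le_pow_left₀ (Real.rpow_nonneg hnr.le _) h6 _
    gcongr
  -- union
  have hun : ∀ S : I → Bool, (if ∀ x x' : V, x ≠ x' →
      FC (fun x y => S (c x y)) t x ≠ FC (fun x y => S (c x y)) t x' then (0 : ℝ) else 1) ≤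
      ∑ p ∈ (univ : Finset (V × V)).filter (fun p => p.1 ≠ p.2),
        (if ff c p.1 p.2 (T (β p.1 p.2)) S = 0 then (1 : ℝ) else 0) := by
    intro S
    split_ifs with h
    · exact Finset.sum_nonneg fun p _ => by split_ifs <;> norm_num
    · push Not at h
      obtain ⟨x, x', hxx, hF⟩ := h
      have h1 : ff c x x' (T (β x x')) S = 0 :=
        ff_of_FC (T (β x x')) (fun j => e (β x x', j)) (fun j => by simp [ht]) hF
      refine le_trans (le_of_eq ?_) (Finset.single_le_sum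
        (f := fun p : V × V => if ff c p.1 p.2 (T (β p.1 p.2)) S = 0 then (1 : ℝ) else 0)
        (fun p _ => by split_ifs <;> norm_num) (show (x, x') ∈ (univ : Finset (V × V)).filter (fun p => p.1 ≠ p.2) by simp [hxx]))
      simp only [h1, if_true]
  refine (ex_mono hq0' hq1' hun).trans ?_
  rw [ex_sum]
  calc ∑ p ∈ (univ : Finset (V × V)).filter (fun p => p.1 ≠ p.2),
        ex q (fun S : I → Bool => if ff c p.1 p.2 (T (β p.1 p.2)) S = 0 then (1 : ℝ) else 0)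
      ≤ ∑ _p ∈ (univ : Finset (V × V)).filter (fun p => p.1 ≠ p.2), C₁ / (n : ℝ) ^ (A + 2) :=
        Finset.sum_le_sum fun p hp => hpp p.1 p.2 (Finset.mem_filter.1 hp).2
    _ = (((univ : Finset (V × V)).filter (fun p => p.1 ≠ p.2)).card : ℝ) * (C₁ / (n : ℝ) ^ (A + 2)) := by
        rw [Finset.sum_const, nsmul_eq_mul]
    _ ≤ (n : ℝ) ^ 2 * (C₁ / (n : ℝ) ^ (A + 2)) := by
        gcongr
        have : ((univ : Finset (V × V)).filter (fun p => p.1 ≠ p.2)).card ≤ n ^ 2 := by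
          refine (Finset.card_le_univ _).trans (le_of_eq ?_)
          rw [Fintype.card_prod, sq]
        exact_mod_cast this
    _ = C₁ / (n : ℝ) ^ A := by
        rw [pow_add]
        field_simp
    _ ≤ (C₁ + (M₀ : ℝ) ^ A) / (n : ℝ) ^ A := by
        gcongr
        have : (0 : ℝ) ≤ (M₀ : ℝ) ^ A := by positivity
        linarith

open Classical in
/-- **Theorem B.** -/
theorem main (ε : ℝ) (hε : 0 < ε) (A : ℕ) : ∃ (κ : ℝ) (K : ℕ) (C : ℝ), 0 < κ ∧ 0 < C ∧
    ∀ (V I : Type) [Fintype V] [DecidableEq V] [Nonempty V] [Fintype I] [DecidableEq I] (c : V → V → I)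
    (I₀ : Finset I) (s D : ℕ), Sparse c I₀ s D →
    (s : ℝ) * (s + D) ≤ (Fintype.card V : ℝ) ^ (1 - ε) →
    ∀ (δ : ℝ) (q : I → ℝ), (Fintype.card V : ℝ) ^ (-κ) ≤ δ → δ ≤ 1 / 2 →
    (∀ u, 0 ≤ q u) → (∀ u, q u ≤ 1) → (∀ u, u ∉ I₀ → δ ≤ q u) → (∀ u, u ∉ I₀ → q u ≤ 1 - δ) →
    ex q (fun S : I → Bool => if Identified K (fun x y : V => S (c x y) = true) then 0 else 1) ≤
      C / (Fintype.card V : ℝ) ^ A := by
  obtain ⟨κ, m, C, hκ, hC, h⟩ := main_bound ε hε A
  refine ⟨κ, m + 2, C, hκ, hC, ?_⟩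
  intro V I _ _ _ _ _ c I₀ s D hc hsD δ q hδ hδ1 hq0' hq1' hq0 hq1
  obtain ⟨t, ht⟩ := h V I c I₀ s D hc hsD
  refine (ex_mono hq0' hq1' fun S => ?_).trans (ht δ q hδ hδ1 hq0' hq1' hq0 hq1)
  by_cases h1 : ∀ x x' : V, x ≠ x' → FC (fun x y => S (c x y)) t x ≠ FC (fun x y => S (c x y)) t x'
  · rw [if_pos h1, if_pos (identified_of (fun x y => S (c x y)) t h1)]
  · rw [if_neg h1]
    split_ifs <;> norm_num

end CDB
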