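import Mathlib

/-!
# CDB.Prob: independent biased bits

`ex q F` is the expectation of `F S` if the bits `S u` are independent, `P(S u = true) = q u`.
-/

set_option linter.unusedSectionVars false

namespace CDB

open Finset

variable {I : Type} [Fintype I] [DecidableEq I]

/-- The probability of `S`. -/
noncomputable def wt (q : I → ℝ) (S : I → Bool) : ℝ := ∏ u, (if S u = true then q u else 1 - q u)

/-- The expectation of `F`. -/
noncomputable def ex (q : I → ℝ) (F : (I → Bool) → ℝ) : ℝ := ∑ S : I → Bool, wt q S * F S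

/-- The bits of `S` on `A` and those of `S'` elsewhere. -/
def mix (A : Finset I) (S S' : I → Bool) : I → Bool := fun x => if x ∈ A then S x else S' x

theorem sum_wt (q : I → ℝ) : ∑ S : I → Bool, wt q S = 1 := by
  unfold wt
  have h := Finset.prod_univ_sum (fun _ : I => (univ : Finset Bool)) (fun u b => if b = true then q u else 1 - q u)
  rw [Fintype.piFinset_univ] at h
  rw [← h]
  refine Finset.prod_eq_one fun u _ => ?_
  simp

theorem wt_nonneg {q : I → ℝ} (h0 : ∀ u, 0 ≤ q u) (h1 : ∀ u, q u ≤ 1) (S : I → Bool) : 0 ≤ wt q S := by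
  refine Finset.prod_nonneg fun u _ => ?_
  split_ifs
  · exact h0 u
  · linarith [h1 u]

theorem ex_const (q : I → ℝ) (a : ℝ) : ex q (fun _ => a) = a := by
  unfold ex
  rw [← Finset.sum_mul, sum_wt, one_mul]

theorem ex_add (q : I → ℝ) (F F' : (I → Bool) → ℝ) : ex q (fun S => F S + F' S) = ex q F + ex q F' := by
  unfold ex
  rw [← Finset.sum_add_distrib]
  exact Finset.sum_congr rfl fun S _ => by ring

theorem ex_mul (q : I → ℝ) (a : ℝ) (F : (I → Bool) → ℝ) : ex q (fun S => a * F S) = a * ex q F := by
  unfold ex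
  rw [Finset.mul_sum]
  exact Finset.sum_congr rfl fun S _ => by ring

theorem ex_sum {J : Type*} (q : I → ℝ) (s : Finset J) (F : J → (I → Bool) → ℝ) :
    ex q (fun S => ∑ j ∈ s, F j S) = ∑ j ∈ s, ex q (F j) := by
  unfold ex
  rw [Finset.sum_comm]
  exact Finset.sum_congr rfl fun S _ => by rw [Finset.mul_sum]

theorem ex_mono {q : I → ℝ} (h0 : ∀ u, 0 ≤ q u) (h1 : ∀ u, q u ≤ 1) {F F' : (I → Bool) → ℝ}
    (h : ∀ S, F S ≤ F' S) : ex q F ≤ ex q F' :=
  Finset.sum_le_sum fun S _ => mul_le_mul_of_nonneg_left (h S) (wt_nonneg h0 h1 S)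

theorem ex_nonneg {q : I → ℝ} (h0 : ∀ u, 0 ≤ q u) (h1 : ∀ u, q u ≤ 1) {F : (I → Bool) → ℝ}
    (h : ∀ S, 0 ≤ F S) : 0 ≤ ex q F :=
  Finset.sum_nonneg fun S _ => mul_nonneg (wt_nonneg h0 h1 S) (h S)

theorem ex_le_of_le {q : I → ℝ} (h0 : ∀ u, 0 ≤ q u) (h1 : ∀ u, q u ≤ 1) {F : (I → Bool) → ℝ} {a : ℝ}
    (h : ∀ S, F S ≤ a) : ex q F ≤ a := by
  have := ex_mono h0 h1 h
  rwa [ex_const] at this

theorem wt_mix (q : I → ℝ) (A : Finset I) (S S' : I → Bool) :
    wt q (mix A S S') * wt q (mix A S' S) = wt q S * wt q S' := by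
  unfold wt
  rw [← Finset.prod_mul_distrib, ← Finset.prod_mul_distrib]
  refine Finset.prod_congr rfl fun u _ => ?_
  by_cases h : u ∈ A
  · simp [mix, h]
  · simp only [mix, h, if_false]
    ring

/-- Exchanging bits with an independent copy. -/
theorem mix_ex (q : I → ℝ) (A : Finset I) (F : (I → Bool) → ℝ) :
    ex q (fun S => ex q (fun S' => F (mix A S S'))) = ex q F := by
  let e : (I → Bool) × (I → Bool) ≃ (I → Bool) × (I → Bool) :=
    { toFun := fun p => (mix A p.1 p.2, mix A p.2 p.1)
      invFun := fun p => (mix A p.1 p.2, mix A p.2 p.1)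
      left_inv := by
        intro p
        refine Prod.ext ?_ ?_ <;> funext x <;> by_cases hx : x ∈ A <;> simp [mix, hx]
      right_inv := by
        intro p
        refine Prod.ext ?_ ?_ <;> funext x <;> by_cases hx : x ∈ A <;> simp [mix, hx] }
  calc ex q (fun S => ex q (fun S' => F (mix A S S')))
      = ∑ p : (I → Bool) × (I → Bool), wt q (e p).1 * wt q (e p).2 * F (e p).1 := by
        rw [Fintype.sum_prod_type]
        unfold ex
        refine Finset.sum_congr rfl fun S _ => ?_
        rw [Finset.mul_sum]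
        refine Finset.sum_congr rfl fun S' _ => ?_
        have : wt q (e (S, S')).1 * wt q (e (S, S')).2 = wt q S * wt q S' := wt_mix q A S S'
        rw [this]
        simp only [e, Equiv.coe_fn_mk]
        ring
    _ = ∑ p : (I → Bool) × (I → Bool), wt q p.1 * wt q p.2 * F p.1 :=
        Equiv.sum_comp e (fun p => wt q p.1 * wt q p.2 * F p.1)
    _ = ex q F := by
        rw [Fintype.sum_prod_type]
        unfold ex
        refine Finset.sum_congr rfl fun S _ => ?_
        show ∑ S' : I → Bool, wt q S * wt q S' * F S = wt q S * F S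
        rw [← Finset.sum_mul, ← Finset.mul_sum, sum_wt, mul_one]

theorem ex_comm (q : I → ℝ) (F : (I → Bool) → (I → Bool) → ℝ) :
    ex q (fun S => ex q (fun S' => F S S')) = ex q (fun S' => ex q (fun S => F S S')) := by
  unfold ex
  simp only [Finset.mul_sum]
  rw [Finset.sum_comm]
  exact Finset.sum_congr rfl fun S _ => Finset.sum_congr rfl fun S' _ => by ring

theorem indep_two (q : I → ℝ) (A : Finset I) (f g : (I → Bool) → ℝ)
    (hf : ∀ S S' : I → Bool, (∀ x ∈ A, S x = S' x) → f S = f S')
    (hg : ∀ S S' : I → Bool, (∀ x, x ∉ A → S x = S' x) → g S = g S') :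
    ex q (fun S => f S * g S) = ex q f * ex q g := by
  rw [← mix_ex q A (fun S => f S * g S)]
  have h : ∀ S S' : I → Bool, f (mix A S S') * g (mix A S S') = f S * g S' := by
    intro S S'
    have h1 : f (mix A S S') = f S := hf _ _ fun x hx => by simp [mix, hx]
    have h2 : g (mix A S S') = g S' := hg _ _ fun x hx => by simp [mix, hx]
    rw [h1, h2]
  simp only [h, ex_mul]
  have : ex q (fun S => f S * ex q g) = ex q (fun S => ex q g * f S) := by
    unfold ex
    exact Finset.sum_congr rfl fun S _ => by ring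
  rw [show (fun S => f S * ex q fun S => g S) = fun S => f S * ex q g from rfl, this, ex_mul]
  ring

theorem indep_prod {ι : Type*} [DecidableEq ι] (q : I → ℝ) (H : Finset ι)
    (N : ι → Finset I) (w : ι → (I → Bool) → ℝ)
    (hdisj : ∀ i ∈ H, ∀ j ∈ H, i ≠ j → Disjoint (N i) (N j))
    (hdep : ∀ i ∈ H, ∀ S S' : I → Bool, (∀ x ∈ N i, S x = S' x) → w i S = w i S') :
    ex q (fun S => ∏ i ∈ H, w i S) = ∏ i ∈ H, ex q (w i) := by
  induction H using Finset.induction_on with
  | empty => simp [ex_const]
  | insert a H ha ih =>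
    have ih' := ih (fun i hi j hj => hdisj i (mem_insert_of_mem hi) j (mem_insert_of_mem hj))
      (fun i hi => hdep i (mem_insert_of_mem hi))
    have h := indep_two q (N a) (w a) (fun S => ∏ i ∈ H, w i S) (hdep a (mem_insert_self a H)) (by
      intro S S' hS
      refine Finset.prod_congr rfl fun i hi => hdep i (mem_insert_of_mem hi) S S' fun x hx => hS x ?_
      have := hdisj i (mem_insert_of_mem hi) a (mem_insert_self a H) (by rintro rfl; exact ha hi)
      exact Finset.disjoint_left.1 this hx)
    simp only [Finset.prod_insert ha]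
    rw [h, ih']

/-- The probability of a pattern. -/
theorem ex_pattern {q : I → ℝ} {δ : ℝ} (hδ : 0 ≤ δ) (h0 : ∀ u, δ ≤ q u) (h1 : ∀ u, q u ≤ 1 - δ)
    (A : Finset I) (T : I → Bool) :
    δ ^ A.card ≤ ex q (fun S => if ∀ g ∈ A, T g = S g then 1 else 0) := by
  classical
  have h2 : ∀ S : I → Bool, (if ∀ g ∈ A, T g = S g then (1 : ℝ) else 0) = ∏ g ∈ A, (if T g = S g then (1 : ℝ) else 0) := by
    intro S
    by_cases h : ∀ g ∈ A, T g = S g
    · rw [if_pos h]
      symm
      exact Finset.prod_eq_one fun g hg => if_pos (h g hg)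
    · rw [if_neg h]
      push Not at h
      obtain ⟨g, hg, hne⟩ := h
      symm
      exact Finset.prod_eq_zero hg (if_neg hne)
  rw [show (fun S : I → Bool => if ∀ g ∈ A, T g = S g then (1 : ℝ) else 0) =
    fun S => ∏ g ∈ A, (if T g = S g then (1 : ℝ) else 0) from funext h2]
  rw [indep_prod q A (fun g => {g}) (fun g S => if T g = S g then (1 : ℝ) else 0)
    (fun i _ j _ hij => by simpa using hij)
    (fun g _ S S' h => by rw [h g (by simp)])]
  rw [← Finset.prod_const]
  refine Finset.prod_le_prod (fun _ _ => hδ) fun g _ => ?_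
  -- one bit
  have h3 : ex q (fun S => if T g = S g then (1 : ℝ) else 0) = if T g = true then q g else 1 - q g := by
    unfold ex wt
    have h4 : ∀ S : I → Bool, (∏ u, (if S u = true then q u else 1 - q u)) * (if T g = S g then (1 : ℝ) else 0) =
        ∏ u, ((if S u = true then q u else 1 - q u) * (if u = g then (if T g = S u then (1 : ℝ) else 0) else 1)) := by
      intro S
      rw [Finset.prod_mul_distrib]
      congr 1
      rw [Finset.prod_ite_eq' univ g]
      simp
    simp only [h4]
    have h := Finset.prod_univ_sum (fun _ : I => (univ : Finset Bool))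
      (fun u b => (if b = true then q u else 1 - q u) * (if u = g then (if T g = b then (1 : ℝ) else 0) else 1))
    rw [Fintype.piFinset_univ] at h
    rw [← h, Finset.prod_eq_single g]
    · rw [Fintype.sum_bool]
      cases T g <;> simp
    · intro u _ hu
      simp [hu]
    · intro h; exact absurd (mem_univ g) h
  rw [h3]
  split_ifs
  · exact h0 g
  · linarith [h1 g]

end CDB
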