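import Pool.Agent.CDB.AconQ
import Pool.Agent.CDB.Hid

/-!
# CDB.Swt: the statistics and their switches

`ff c x x' a S i` is the difference of the numbers of the `y` with arcs from `x` (from `x'`) and with the pattern `e_i` of arcs from the `a j`, for the patterns `e_i` with at least two ones.
`sw_ff`: the hidden set of `hidden` satisfies the assumptions of `acon_q`. The increment at `c x y` as a function of the bits `w j` of the pairs `(a j, y)` is the unit vector of `w` (from `y` itself) plus a sum of functions of one bit each (`GoodY.g4`), so the second differences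
are those of the unit vector; a functional which vanishes on all values has coefficients with vanishing second differences, which are `0` for the patterns with at most one `1`; hence it is `0`.
-/

set_option linter.unusedSectionVars false

namespace CDB

open Finset CDG

/-- The patterns with at least two ones. -/
abbrev Pat (k : ℕ) := {e : Fin k → Bool // 2 ≤ (univ.filter fun j => e j = true).card}

/-- The number of the patterns. -/
noncomputable def dd (k : ℕ) : ℕ := Fintype.card (Pat k)

/-- The `i`-th pattern. -/
noncomputable def pat (k : ℕ) (i : Fin (dd k)) : Fin k → Bool := ((Fintype.equivFin (Pat k)).symm i).1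

theorem pat_inj (k : ℕ) : Function.Injective (pat k) := fun i j h =>
  (Fintype.equivFin (Pat k)).symm.injective (Subtype.ext h)

theorem pat_two (k : ℕ) (i : Fin (dd k)) : 2 ≤ (univ.filter fun j => pat k i j = true).card :=
  ((Fintype.equivFin (Pat k)).symm i).2

/-- Unit vectors plus a function with vanishing second differences span. -/
theorem span_aff {k : ℕ} (v r : (Fin k → Bool) → (Fin (dd k) → ℤ))
    (hv : ∀ w i, v w i = (if w = pat k i then 1 else 0) + r w i)
    (hr : ∀ i j : Fin k, i ≠ j → ∀ w, r w - r (Function.update w i false) - r (Function.update w j false) +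
      r (Function.update (Function.update w i false) j false) = 0) :
    Submodule.span ℚ (Set.range fun w : Fin k → Bool => fun i => ((v w i : ℤ) : ℚ)) = ⊤ := by
  by_contra hne
  obtain ⟨ℓ, hℓ, hker⟩ := Submodule.exists_le_ker_of_lt_top _ (lt_top_iff_ne_top.2 hne)
  have h0 : ∀ w, ℓ (fun i => ((v w i : ℤ) : ℚ)) = 0 := fun w =>
    LinearMap.mem_ker.1 (hker (Submodule.subset_span ⟨w, rfl⟩))
  set L : (Fin k → Bool) → ℚ := fun w => ℓ (fun i => if w = pat k i then (1 : ℚ) else 0) with hL
  set R : (Fin k → Bool) → ℚ := fun w => ℓ (fun i => ((r w i : ℤ) : ℚ)) with hR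
  have h1 : ∀ w, L w = - R w := by
    intro w
    have h2 : (fun i => ((v w i : ℤ) : ℚ)) = (fun i => if w = pat k i then (1 : ℚ) else 0) + fun i => ((r w i : ℤ) : ℚ) := by
      funext i
      rw [Pi.add_apply, hv w i]
      push_cast
      rfl
    have h3 := h0 w
    rw [h2, map_add] at h3
    exact eq_neg_of_add_eq_zero_left h3
  have h2 : ∀ i j : Fin k, i ≠ j → ∀ w, R w - R (Function.update w i false) - R (Function.update w j false) +
      R (Function.update (Function.update w i false) j false) = 0 := by
    intro i j hij w
    simp only [hR]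
    rw [← map_sub, ← map_sub, ← map_add]
    have h3 : ((((fun l => ((r w l : ℤ) : ℚ)) - fun l => ((r (Function.update w i false) l : ℤ) : ℚ)) -
        fun l => ((r (Function.update w j false) l : ℤ) : ℚ)) +
        fun l => ((r (Function.update (Function.update w i false) j false) l : ℤ) : ℚ)) = 0 := by
      funext l
      have h4 := congrFun (hr i j hij w) l
      simp only [Pi.add_apply, Pi.sub_apply, Pi.zero_apply] at h4 ⊢
      exact_mod_cast h4
    rw [h3, map_zero]
  have h3 : ∀ i j : Fin k, i ≠ j → ∀ w, L w - L (Function.update w i false) - L (Function.update w j false) +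
      L (Function.update (Function.update w i false) j false) = 0 := by
    intro i j hij w
    rw [h1, h1, h1, h1]
    have := h2 i j hij w
    linarith
  have hoff : ∀ (w : Fin k → Bool) (i : Fin k), w i = true →
      (univ.filter fun j => Function.update w i false j = true).card < (univ.filter fun j => w j = true).card := by
    intro w i hi
    apply Finset.card_lt_card
    rw [Finset.ssubset_iff_of_subset]
    · exact ⟨i, by simp [hi], by simp⟩
    · intro j hj
      simp only [mem_filter, mem_univ, true_and] at hj ⊢
      by_cases hji : j = i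
      · rw [hji]; exact hi
      · rwa [Function.update_of_ne hji] at hj
  have h4 : ∀ (m : ℕ) (w : Fin k → Bool), (univ.filter fun j => w j = true).card ≤ m → L w = 0 := by
    intro m
    induction m with
    | zero =>
      intro w hw
      have h5 : (fun i => if w = pat k i then (1 : ℚ) else 0) = 0 := by
        funext i
        rw [if_neg, Pi.zero_apply]
        rintro rfl
        have := pat_two k i
        omega
      simp only [hL]
      rw [h5, map_zero]
    | succ m ih =>
      intro w hw
      rcases Nat.lt_or_ge (univ.filter fun j => w j = true).card 2 with hlt | hge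
      · have h5 : (fun i => if w = pat k i then (1 : ℚ) else 0) = 0 := by
          funext i
          rw [if_neg, Pi.zero_apply]
          rintro rfl
          have := pat_two k i
          omega
        simp only [hL]
        rw [h5, map_zero]
      · obtain ⟨i, hi, j, hj, hij⟩ := Finset.one_lt_card.1 (show 1 < (univ.filter fun j => w j = true).card by omega)
        simp only [mem_filter, mem_univ, true_and] at hi hj
        have e1 := ih (Function.update w i false) (by have := hoff w i hi; omega)
        have e2 := ih (Function.update w j false) (by have := hoff w j hj; omega)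
        have e3 := ih (Function.update (Function.update w i false) j false) (by
          have h5 := hoff w i hi
          have h6 := hoff (Function.update w i false) j (by rw [Function.update_of_ne hij.symm]; exact hj)
          omega)
        have e4 := h3 i j hij w
        rw [e1, e2, e3] at e4
        linarith
  apply hℓ
  refine LinearMap.pi_ext' fun i => ?_
  ext
  simp only [LinearMap.coe_comp, Function.comp_apply, LinearMap.coe_single, LinearMap.zero_apply]
  have h5 := h4 _ (pat k i) le_rfl
  simp only [hL] at h5
  have h6 : (fun i' => if pat k i = pat k i' then (1 : ℚ) else 0) = Pi.single i 1 := by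
    funext i'
    by_cases h : i' = i
    · subst h; simp
    · rw [Pi.single_eq_of_ne h, if_neg]
      intro h7
      exact h (pat_inj k h7).symm
  rw [h6] at h5
  exact h5

variable {V I : Type} [Fintype V] [DecidableEq V] [Fintype I] [DecidableEq I]

/-- The value of a bit. -/
def bi (b : Bool) : ℤ := if b = true then 1 else 0

/-- The contribution of `y`. -/
def phi {k : ℕ} (c : V → V → I) (x x' : V) (a : Fin k → V) (y : V) (S : I → Bool) (e : Fin k → Bool) : ℤ :=
  if ∀ j, S (c (a j) y) = e j then bi (S (c x y)) - bi (S (c x' y)) else 0

/-- The statistics. -/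
noncomputable def ff {k : ℕ} (c : V → V → I) (x x' : V) (a : Fin k → V) (S : I → Bool) : Fin (dd k) → ℤ :=
  fun i => ∑ y, phi c x x' a y S (pat k i)

theorem phi_congr {k : ℕ} {c : V → V → I} {x x' : V} {a : Fin k → V} {y : V} {S S' : I → Bool}
    (h : ∀ g ∈ BB c x x' a y, S g = S' g) (e : Fin k → Bool) : phi c x x' a y S e = phi c x x' a y S' e := by
  have h1 : S (c x y) = S' (c x y) := h _ (mem_insert_self _ _)
  have h2 : S (c x' y) = S' (c x' y) := h _ (mem_insert_of_mem (mem_insert_self _ _))
  have h3 : ∀ j, S (c (a j) y) = S' (c (a j) y) := fun j =>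
    h _ (mem_insert_of_mem (mem_insert_of_mem (Finset.mem_image.2 ⟨j, mem_univ j, rfl⟩)))
  unfold phi
  simp only [h1, h2, h3]

/-- The increment of the contribution of `y''` at the bit `u`. -/
def dphi {k : ℕ} (c : V → V → I) (x x' : V) (a : Fin k → V) (u : I) (y'' : V) (S : I → Bool) (e : Fin k → Bool) : ℤ :=
  phi c x x' a y'' (Function.update S u true) e - phi c x x' a y'' (Function.update S u false) e

theorem incr_ff {k : ℕ} (c : V → V → I) (x x' : V) (a : Fin k → V) (u : I) (S : I → Bool) (i : Fin (dd k)) :
    incr (ff c x x' a) u S i = ∑ y'', dphi c x x' a u y'' S (pat k i) := by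
  unfold incr ff dphi
  rw [Pi.sub_apply, ← Finset.sum_sub_distrib]

theorem dphi_zero {k : ℕ} {c : V → V → I} {x x' : V} {a : Fin k → V} {u : I} {y'' : V}
    (h : u ∉ BB c x x' a y'') (S : I → Bool) (e : Fin k → Bool) : dphi c x x' a u y'' S e = 0 := by
  unfold dphi
  rw [phi_congr (S' := Function.update S u false), sub_self]
  intro g hg
  have : g ≠ u := by rintro rfl; exact h hg
  rw [Function.update_of_ne this, Function.update_of_ne this]

theorem dphi_congr {k : ℕ} {c : V → V → I} {x x' : V} {a : Fin k → V} {u : I} {y'' : V} {S S' : I → Bool}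
    (h : ∀ g ∈ BB c x x' a y'', g ≠ u → S g = S' g) (e : Fin k → Bool) :
    dphi c x x' a u y'' S e = dphi c x x' a u y'' S' e := by
  have h1 : ∀ b, ∀ g ∈ BB c x x' a y'', Function.update S u b g = Function.update S' u b g := by
    intro b g hg
    by_cases hgu : g = u
    · subst hgu; simp
    · rw [Function.update_of_ne hgu, Function.update_of_ne hgu, h g hg hgu]
  unfold dphi
  rw [phi_congr (h1 true), phi_congr (h1 false)]

/-- The values of the increment span. -/
theorem span_good {k : ℕ} {c : V → V → I} {I₀ : Finset I} {x x' : V} {a : Fin k → V} {y : V}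
    (hy : GoodY c I₀ x x' a y) (T : I → Bool) :
    Submodule.span ℚ (Set.range fun S : I → Bool => fun i =>
      ((incr (ff c x x' a) (c x y) (mix (WW c a y) S T) i : ℤ) : ℚ)) = ⊤ := by
  classical
  set u := c x y with hu
  -- the state with the switches `w`
  have hinj : Function.Injective fun j => c (a j) y := fun i j hij => by
    by_contra hne
    exact hy.g3 i j hne hij
  let Sw' : (Fin k → Bool) → (I → Bool) := fun w g => if h : ∃ j, c (a j) y = g then w h.choose else false
  have hSw : ∀ w j, Sw' w (c (a j) y) = w j := by
    intro w j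
    have h : ∃ j', c (a j') y = c (a j) y := ⟨j, rfl⟩
    simp only [Sw', dif_pos h]
    congr 1
    exact hinj h.choose_spec
  let st : (Fin k → Bool) → (I → Bool) := fun w => mix (WW c a y) (Sw' w) T
  have hmem : ∀ j, c (a j) y ∈ WW c a y := fun j => Finset.mem_image.2 ⟨j, mem_univ j, rfl⟩
  have hst : ∀ w j, st w (c (a j) y) = w j := by
    intro w j
    simp only [st, mix, hmem j, if_true]
    exact hSw w j
  have hst' : ∀ w w' g, (∀ j, c (a j) y = g → w j = w' j) → st w g = st w' g := by
    intro w w' g h
    by_cases hg : g ∈ WW c a y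
    · obtain ⟨j, -, rfl⟩ := Finset.mem_image.1 hg
      rw [hst, hst]
      exact h j rfl
    · simp only [st, mix, hg, if_false]
  have hspan := span_aff (k := k) (fun w => incr (ff c x x' a) u (st w))
    (fun w i => ∑ y'' ∈ univ.erase y, dphi c x x' a u y'' (st w) (pat k i)) (by
      intro w i
      rw [incr_ff, ← Finset.add_sum_erase univ _ (mem_univ y)]
      congr 1
      -- the contribution of `y`
      unfold dphi phi
      have h1 : ∀ b j, Function.update (st w) u b (c (a j) y) = w j := by
        intro b j
        rw [Function.update_of_ne (hy.g2 j), hst]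
      have h2 : ∀ b, Function.update (st w) u b (c x y) = b := fun b => by rw [← hu]; simp
      have h3 : ∀ b, Function.update (st w) u b (c x' y) = st w (c x' y) := fun b =>
        Function.update_of_ne hy.g1.symm _ _
      simp only [h1, h2, h3]
      by_cases h4 : w = pat k i
      · have h5 : ∀ j, w j = pat k i j := fun j => congrFun h4 j
        rw [if_pos h5, if_pos h5, if_pos h4]
        simp [bi]
      · have h5 : ¬ ∀ j, w j = pat k i j := fun h => h4 (funext h)
        rw [if_neg h5, if_neg h5, if_neg h4]
        simp) (by
      intro i j hij w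
      funext l
      simp only [Pi.add_apply, Pi.sub_apply, Pi.zero_apply]
      rw [← Finset.sum_sub_distrib, ← Finset.sum_sub_distrib, ← Finset.sum_add_distrib]
      refine Finset.sum_eq_zero fun y'' hy'' => ?_
      have hne : y'' ≠ y := (Finset.mem_erase.1 hy'').1
      by_cases huB : u ∈ BB c x x' a y''
      · -- at most one switch occurs at `y''`
        have hkey : ∀ (i : Fin k) (w : Fin k → Bool), c (a i) y ∉ BB c x x' a y'' →
            ∀ w', (∀ m, m ≠ i → w m = w' m) →
            dphi c x x' a u y'' (st w) (pat k l) = dphi c x x' a u y'' (st w') (pat k l) := by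
          intro i w hi w' hw
          refine dphi_congr (fun g hg _ => hst' w w' g fun m hm => ?_) _
          by_cases hmi : m = i
          · subst hmi
            rw [hm] at hi
            exact absurd hg hi
          · exact hw m hmi
        by_cases hi : c (a i) y ∈ BB c x x' a y''
        · have hj : c (a j) y ∉ BB c x x' a y'' := fun hj => hij (hy.g4 y'' hne huB i j hi hj)
          have e1 := hkey j w hj (Function.update w j false) (fun m hm => by rw [Function.update_of_ne hm])
          have e2 := hkey j (Function.update w i false) hj (Function.update (Function.update w i false) j false)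
            (fun m hm => by rw [Function.update_of_ne hm])
          rw [e1, e2]
          ring
        · have e1 := hkey i w hi (Function.update w i false) (fun m hm => by rw [Function.update_of_ne hm])
          have e2 := hkey i (Function.update w j false) hi (Function.update (Function.update w i false) j false)
            (fun m hm => by
              by_cases hmj : m = j
              · subst hmj; simp
              · rw [Function.update_of_ne hmj, Function.update_of_ne hmj, Function.update_of_ne hm])
          rw [e1, e2]
          ring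
      · rw [dphi_zero huB, dphi_zero huB, dphi_zero huB, dphi_zero huB]
        ring)
  rw [eq_top_iff, ← hspan]
  apply Submodule.span_mono
  rintro _ ⟨w, rfl⟩
  exact ⟨Sw' w, rfl⟩

/-- The hidden colours and their switches. -/
theorem sw_ff {k : ℕ} {c : V → V → I} {I₀ : Finset I} {x x' : V} {a : Fin k → V} (H : Finset V)
    (hgood : ∀ y ∈ H, GoodY c I₀ x x' a y) (hdiff : ∀ y ∈ H, ∀ y' ∈ H, y ≠ y' → c x y ≠ c x y')
    (hconf : ∀ y ∈ H, ∀ y' ∈ H, y ≠ y' → ¬ Rc c x x' a y y') :
    ∃ W : I → Finset I, Sw (ff c x x' a) (H.image (c x)) W k ∧ (∀ u ∈ H.image (c x), u ∉ I₀) ∧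
      (∀ u ∈ H.image (c x), ∀ b ∈ W u, b ∉ I₀) ∧ (H.image (c x)).card = H.card := by
  classical
  let W : I → Finset I := fun u => if h : ∃ y, y ∈ H ∧ c x y = u then WW c a h.choose else ∅
  have hW : ∀ y ∈ H, W (c x y) = WW c a y := by
    intro y hy
    have h : ∃ y', y' ∈ H ∧ c x y' = c x y := ⟨y, hy, rfl⟩
    simp only [W, dif_pos h]
    congr 1
    by_contra hne
    exact hdiff _ h.choose_spec.1 y hy hne h.choose_spec.2
  have hbB : ∀ y, c x y ∈ BB c x x' a y := fun y => mem_insert_self _ _
  have hWB : ∀ y, ∀ b ∈ WW c a y, b ∈ BB c x x' a y := fun y b hb => mem_insert_of_mem (mem_insert_of_mem hb)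
  have hWT : ∀ y, ∀ b ∈ WW c a y, b ∈ TT c x a y := fun y b hb => mem_insert_of_mem hb
  have hxT : ∀ y, c x y ∈ TT c x a y := fun y => mem_insert_self _ _
  refine ⟨W, ⟨?_, ?_, ?_, ?_, ?_⟩, ?_, ?_, ?_⟩
  · intro u hu
    obtain ⟨y, hy, rfl⟩ := Finset.mem_image.1 hu
    rw [hW y hy]
    exact WW_card c a y
  · intro u hu
    obtain ⟨y, hy, rfl⟩ := Finset.mem_image.1 hu
    rw [hW y hy, Finset.disjoint_left]
    intro b hb hb'
    obtain ⟨y', hy', rfl⟩ := Finset.mem_image.1 hb'
    by_cases hne : y = y'
    · subst hne
      obtain ⟨j, -, hj⟩ := Finset.mem_image.1 hb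
      exact (hgood y hy).g2 j hj
    · exact hconf y hy y' hy' hne ⟨c x y, hxT y, y, hbB y, hWB y _ hb⟩
  · intro u hu v hv huv
    obtain ⟨y, hy, rfl⟩ := Finset.mem_image.1 hu
    obtain ⟨y', hy', rfl⟩ := Finset.mem_image.1 hv
    have hne : y ≠ y' := by rintro rfl; exact huv rfl
    rw [hW y hy, hW y' hy', Finset.disjoint_left]
    intro b hb hb'
    exact hconf y hy y' hy' hne ⟨b, hWT y b hb, y', hWB y' b hb', hbB y'⟩
  · intro u hu S S' h
    obtain ⟨y, hy, rfl⟩ := Finset.mem_image.1 hu
    funext i
    rw [incr_ff, incr_ff]
    refine Finset.sum_congr rfl fun y'' _ => ?_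
    by_cases huB : c x y ∈ BB c x x' a y''
    · refine dphi_congr (fun g hg hgu => h g ?_ ?_) _
      · intro hgH
        obtain ⟨y', hy', rfl⟩ := Finset.mem_image.1 hgH
        have hne : y ≠ y' := by rintro rfl; exact hgu rfl
        exact hconf y hy y' hy' hne ⟨c x y, hxT y, y'', huB, hg⟩
      · intro v hv hvu hgv
        obtain ⟨y', hy', rfl⟩ := Finset.mem_image.1 hv
        have hne : y' ≠ y := by rintro rfl; exact hvu rfl
        rw [hW y' hy'] at hgv
        exact hconf y' hy' y hy hne ⟨g, hWT y' g hgv, y'', hg, huB⟩
    · rw [dphi_zero huB, dphi_zero huB]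
  · intro u hu T
    obtain ⟨y, hy, rfl⟩ := Finset.mem_image.1 hu
    rw [hW y hy]
    exact span_good (hgood y hy) T
  · intro u hu
    obtain ⟨y, hy, rfl⟩ := Finset.mem_image.1 hu
    exact (hgood y hy).g0
  · intro u hu b hb
    obtain ⟨y, hy, rfl⟩ := Finset.mem_image.1 hu
    rw [hW y hy] at hb
    obtain ⟨j, -, rfl⟩ := Finset.mem_image.1 hb
    exact (hgood y hy).g0' j
  · refine Finset.card_image_of_injOn fun y hy y' hy' h => ?_
    by_contra hne
    exact hdiff y hy y' hy' hne h

end CDB
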